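import Pool.Agent.Lib_MP_a24efc.Krull

/-!
If the cone over a weighted complete intersection has free `ℂˣ`-action away from the origin then
for every `m ≥ 2` at least as many degrees as weights are divisible by `m`.
-/

namespace MP_a24efc.Count

open MvPolynomial

theorem card_dvd_le {n r : ℕ} (w : Fin (n + 1) → ℕ) (d : Fin r → ℕ) (hd : ∀ i, 0 < d i)
    (f : Fin r → MvPolynomial (Fin (n + 1)) ℂ)
    (hf : ∀ i, IsWeightedHomogeneous w (f i) (d i))
    (free : ∀ x : Fin (n + 1) → ℂ, x ≠ 0 → (∀ i, eval x (f i) = 0) →
      ∀ t : ℂ, t ≠ 0 → (∀ j, t ^ (w j) * x j = x j) → t = 1)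
    (m : ℕ) (hm : 2 ≤ m) :
    (Finset.univ.filter (fun j => m ∣ w j)).card ≤ (Finset.univ.filter (fun i => m ∣ d i)).card := by
  classical
  by_contra hlt
  push Not at hlt
  -- variables and equations divisible by `m`
  let J := {j : Fin (n + 1) // m ∣ w j}
  let I := {i : Fin r // m ∣ d i}
  have hJ : Fintype.card J = (Finset.univ.filter (fun j => m ∣ w j)).card := Fintype.card_subtype _
  have hI : Fintype.card I = (Finset.univ.filter (fun i => m ∣ d i)).card := Fintype.card_subtype _
  let res : MvPolynomial (Fin (n + 1)) ℂ →ₐ[ℂ] MvPolynomial J ℂ :=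
    aeval (fun j => if h : m ∣ w j then X (⟨j, h⟩ : J) else 0)
  let ext (y : J → ℂ) : Fin (n + 1) → ℂ := fun j => if h : m ∣ w j then y ⟨j, h⟩ else 0
  have hres : ∀ (y : J → ℂ) (p : MvPolynomial (Fin (n + 1)) ℂ),
      aeval y (res p) = eval (ext y) p := by
    intro y p
    have : ((aeval y : MvPolynomial J ℂ →ₐ[ℂ] ℂ).comp res) = aeval (ext y) := by
      apply MvPolynomial.algHom_ext
      intro j
      simp only [res, ext, AlgHom.comp_apply, aeval_X]
      split_ifs <;> simp
    have h2 := congrArg (fun g => g p) this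
    simpa [coe_aeval_eq_eval] using h2
  -- no constant term
  have hzero : ∀ i, eval (0 : Fin (n + 1) → ℂ) (f i) = 0 := by
    intro i
    have h0 : eval (0 : Fin (n + 1) → ℂ) (f i) = coeff 0 (f i) := by
      rw [← constantCoeff_eq]
      exact congrArg (fun g => g (f i)) (eval_zero (σ := Fin (n + 1)) (R := ℂ))
    rw [h0]
    by_contra h
    have hw : Finsupp.weight w (0 : Fin (n + 1) →₀ ℕ) = d i := hf i h
    have := hd i
    simp at hw
    omega
  obtain ⟨y, hy0, hy⟩ := Krull.exists_common_zero (J := J) (I := I) (fun i => res (f i.1))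
    (by
      intro i
      rw [hres]
      have : ext 0 = 0 := by
        funext j; simp [ext]
      rw [this]; exact hzero _)
    (by rw [hI, hJ]; exact hlt)
  have hx0 : ext y ≠ 0 := by
    intro h
    apply hy0
    funext j
    have := congrFun h j.1
    simpa [ext, j.2] using this
  have hx : ∀ i, eval (ext y) (f i) = 0 := by
    intro i
    by_cases hi : m ∣ d i
    · have := hy ⟨i, hi⟩
      rwa [hres] at this
    · rw [eval_eq']
      apply Finset.sum_eq_zero
      intro s hs
      have hs' : coeff s (f i) ≠ 0 := by simpa using hs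
      have hw : Finsupp.weight w s = d i := hf i hs'
      by_contra hne
      apply hi
      rw [← hw, Finsupp.weight_apply, Finsupp.sum]
      apply Finset.dvd_sum
      intro j hj
      have hj0 : s j ≠ 0 := by simpa using hj
      have : m ∣ w j := by
        by_contra hmj
        apply hne
        apply mul_eq_zero_of_right
        apply Finset.prod_eq_zero (Finset.mem_univ j)
        simp [ext, hmj, hj0]
      simpa using Dvd.dvd.mul_left this _
  -- the root of unity
  have hm0 : (m : ℂ) ≠ 0 := by exact_mod_cast (by omega : m ≠ 0)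
  have hprim := Complex.isPrimitiveRoot_exp m (by omega)
  set t := Complex.exp (2 * Real.pi * Complex.I / m) with ht
  have ht1 : t = 1 := by
    apply free (ext y) hx0 hx t (Complex.exp_ne_zero _)
    intro j
    by_cases hj : m ∣ w j
    · obtain ⟨c, hc⟩ := hj
      rw [hc, pow_mul, hprim.pow_eq_one, one_pow, one_mul]
    · simp [ext, hj]
  have h1 : t ^ 1 = 1 := by rw [pow_one]; exact ht1
  have := Nat.le_of_dvd one_pos (hprim.dvd_of_pow_eq_one 1 h1)
  omega

end MP_a24efc.Count
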