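import Mathlib

/-!
A residue computation on a rectangle: if `H` is analytic on the closed rectangle
`[a₁,a₂] × [b₁,b₂]` with the origin in its interior and the contour integral of `H(z)/z^N`
over its boundary vanishes, then the Taylor coefficient of order `N - 1` of `H` vanishes.
-/

namespace MP_a24efc.Rect

open Complex Filter Topology MeasureTheory

/-- contour integral over the boundary of a rectangle -/
noncomputable def rectInt (f : ℂ → ℂ) (a₁ a₂ b₁ b₂ : ℝ) : ℂ :=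
  (∫ x in a₁..a₂, f (x + b₁ * I)) - (∫ x in a₁..a₂, f (x + b₂ * I)) +
    I * (∫ y in b₁..b₂, f (a₂ + y * I)) - I * (∫ y in b₁..b₂, f (a₁ + y * I))

/-- the four sides do not meet the origin -/
theorem side_ne {x y : ℝ} (h : x ≠ 0 ∨ y ≠ 0) : (x : ℂ) + y * I ≠ 0 := by
  intro h0
  have h1 := congrArg Complex.re h0
  have h2 := congrArg Complex.im h0
  simp at h1 h2
  rcases h with h | h
  · exact h h1
  · exact h h2

variable {a₁ a₂ b₁ b₂ : ℝ}

theorem continuous_side_h {f : ℂ → ℂ} (hf : ContinuousOn f {0}ᶜ) {b : ℝ} (hb : b ≠ 0) :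
    Continuous fun x : ℝ => f (x + b * I) := by
  refine continuous_iff_continuousAt.mpr fun x => ?_
  have h : ContinuousAt f (x + b * I) :=
    hf.continuousAt (isOpen_compl_singleton.mem_nhds (side_ne (Or.inr hb)))
  exact ContinuousAt.comp (f := fun x : ℝ => (x : ℂ) + b * I) h (by fun_prop)

theorem continuous_side_v {f : ℂ → ℂ} (hf : ContinuousOn f {0}ᶜ) {a : ℝ} (ha : a ≠ 0) :
    Continuous fun y : ℝ => f (a + y * I) := by
  refine continuous_iff_continuousAt.mpr fun x => ?_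
  have h : ContinuousAt f (a + x * I) :=
    hf.continuousAt (isOpen_compl_singleton.mem_nhds (side_ne (Or.inl ha)))
  exact ContinuousAt.comp (f := fun y : ℝ => (a : ℂ) + y * I) h (by fun_prop)

/-- the closed rectangle -/
def rect (a₁ a₂ b₁ b₂ : ℝ) : Set ℂ := Set.uIcc a₁ a₂ ×ℂ Set.uIcc b₁ b₂

theorem integrable_h {f : ℂ → ℂ} (hf : ContinuousOn f (rect a₁ a₂ b₁ b₂ \ {0})) {b : ℝ}
    (hb : b ∈ Set.uIcc b₁ b₂) (hb0 : b ≠ 0) :
    IntervalIntegrable (fun x : ℝ => f (x + b * I)) volume a₁ a₂ := by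
  refine ContinuousOn.intervalIntegrable (hf.comp (by fun_prop) fun x hx => ⟨?_, ?_⟩)
  · refine mem_reProdIm.mpr ⟨?_, ?_⟩
    · simpa using hx
    · simpa using hb
  · exact side_ne (Or.inr hb0)

theorem integrable_v {f : ℂ → ℂ} (hf : ContinuousOn f (rect a₁ a₂ b₁ b₂ \ {0})) {a : ℝ}
    (ha : a ∈ Set.uIcc a₁ a₂) (ha0 : a ≠ 0) :
    IntervalIntegrable (fun y : ℝ => f (a + y * I)) volume b₁ b₂ := by
  refine ContinuousOn.intervalIntegrable (hf.comp (by fun_prop) fun x hx => ⟨?_, ?_⟩)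
  · refine mem_reProdIm.mpr ⟨?_, ?_⟩
    · simpa using ha
    · simpa using hx
  · exact side_ne (Or.inl ha0)

theorem rectInt_add {f g : ℂ → ℂ} (hf : ContinuousOn f (rect a₁ a₂ b₁ b₂ \ {0}))
    (hg : ContinuousOn g (rect a₁ a₂ b₁ b₂ \ {0}))
    (ha₁ : a₁ ≠ 0) (ha₂ : a₂ ≠ 0) (hb₁ : b₁ ≠ 0) (hb₂ : b₂ ≠ 0) :
    rectInt (fun z => f z + g z) a₁ a₂ b₁ b₂ = rectInt f a₁ a₂ b₁ b₂ + rectInt g a₁ a₂ b₁ b₂ := by
  unfold rectInt
  rw [intervalIntegral.integral_add (integrable_h hf Set.left_mem_uIcc hb₁)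
      (integrable_h hg Set.left_mem_uIcc hb₁),
    intervalIntegral.integral_add (integrable_h hf Set.right_mem_uIcc hb₂)
      (integrable_h hg Set.right_mem_uIcc hb₂),
    intervalIntegral.integral_add (integrable_v hf Set.left_mem_uIcc ha₁)
      (integrable_v hg Set.left_mem_uIcc ha₁),
    intervalIntegral.integral_add (integrable_v hf Set.right_mem_uIcc ha₂)
      (integrable_v hg Set.right_mem_uIcc ha₂)]
  ring

theorem rectInt_const_mul (c : ℂ) (f : ℂ → ℂ) :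
    rectInt (fun z => c * f z) a₁ a₂ b₁ b₂ = c * rectInt f a₁ a₂ b₁ b₂ := by
  unfold rectInt
  simp only [intervalIntegral.integral_const_mul]
  ring

theorem rectInt_congr {f g : ℂ → ℂ} (h : ∀ z ≠ 0, f z = g z)
    (ha₁ : a₁ ≠ 0) (ha₂ : a₂ ≠ 0) (hb₁ : b₁ ≠ 0) (hb₂ : b₂ ≠ 0) :
    rectInt f a₁ a₂ b₁ b₂ = rectInt g a₁ a₂ b₁ b₂ := by
  unfold rectInt
  have e1 : (fun x : ℝ => f (x + b₁ * I)) = fun x : ℝ => g (x + b₁ * I) :=
    funext fun x => h _ (side_ne (Or.inr hb₁))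
  have e2 : (fun x : ℝ => f (x + b₂ * I)) = fun x : ℝ => g (x + b₂ * I) :=
    funext fun x => h _ (side_ne (Or.inr hb₂))
  have e3 : (fun y : ℝ => f (a₁ + y * I)) = fun y : ℝ => g (a₁ + y * I) :=
    funext fun x => h _ (side_ne (Or.inl ha₁))
  have e4 : (fun y : ℝ => f (a₂ + y * I)) = fun y : ℝ => g (a₂ + y * I) :=
    funext fun x => h _ (side_ne (Or.inl ha₂))
  rw [e1, e2, e3, e4]

/-- a function with a primitive outside the origin has vanishing contour integral -/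
theorem rectInt_of_primitive {f F : ℂ → ℂ} (hF : ∀ z ≠ 0, HasDerivAt F (f z) z)
    (hf : ContinuousOn f {0}ᶜ)
    (ha₁ : a₁ ≠ 0) (ha₂ : a₂ ≠ 0) (hb₁ : b₁ ≠ 0) (hb₂ : b₂ ≠ 0) :
    rectInt f a₁ a₂ b₁ b₂ = 0 := by
  have horiz : ∀ b : ℝ, b ≠ 0 → ∫ x in a₁..a₂, f (x + b * I) = F (a₂ + b * I) - F (a₁ + b * I) := by
    intro b hb
    refine intervalIntegral.integral_eq_sub_of_hasDerivAt (f := fun x : ℝ => F (x + b * I))
      (fun x _ => ?_) ((continuous_side_h hf hb).intervalIntegrable _ _)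
    have h1 : HasDerivAt (fun x : ℂ => F (x + b * I)) (f (x + b * I)) (x : ℂ) :=
      (hF _ (side_ne (Or.inr hb))).comp_add_const _ _
    exact h1.comp_ofReal
  have vert : ∀ a : ℝ, a ≠ 0 → I * ∫ y in b₁..b₂, f (a + y * I) =
      F (a + b₂ * I) - F (a + b₁ * I) := by
    intro a ha
    rw [← intervalIntegral.integral_const_mul]
    refine intervalIntegral.integral_eq_sub_of_hasDerivAt (f := fun y : ℝ => F (a + y * I))
      (fun y _ => ?_) (((continuous_side_v hf ha).const_mul _).intervalIntegrable _ _)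
    have h0 : HasDerivAt (fun y : ℂ => (a : ℂ) + y * I) I (y : ℂ) := by
      simpa using ((hasDerivAt_id (y : ℂ)).mul_const I).const_add (a : ℂ)
    have h1 : HasDerivAt (fun y : ℂ => F (a + y * I)) (f (a + y * I) * I) (y : ℂ) :=
      (hF _ (side_ne (Or.inl ha))).comp (y : ℂ) h0
    rw [mul_comm]
    exact h1.comp_ofReal
  unfold rectInt
  rw [horiz b₁ hb₁, horiz b₂ hb₂, vert a₁ ha₁, vert a₂ ha₂]
  ring

theorem continuousOn_inv_pow (p : ℕ) : ContinuousOn (fun z : ℂ => (z ^ p)⁻¹) {0}ᶜ :=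
  ContinuousOn.inv₀ (by fun_prop) fun _ hz => pow_ne_zero _ hz

theorem rectInt_inv_pow (p : ℕ) (hp : 2 ≤ p)
    (ha₁ : a₁ ≠ 0) (ha₂ : a₂ ≠ 0) (hb₁ : b₁ ≠ 0) (hb₂ : b₂ ≠ 0) :
    rectInt (fun z => (z ^ p)⁻¹) a₁ a₂ b₁ b₂ = 0 := by
  obtain ⟨k, rfl⟩ : ∃ k, p = k + 1 + 1 := ⟨p - 2, by omega⟩
  refine rectInt_of_primitive (F := fun z => -(1 / ((k : ℂ) + 1)) * (z ^ (k + 1))⁻¹)
    (fun z hz => ?_) (continuousOn_inv_pow _) ha₁ ha₂ hb₁ hb₂
  have hk : (k : ℂ) + 1 ≠ 0 := by exact_mod_cast (Nat.succ_ne_zero k)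
  have h1 : HasDerivAt (fun z : ℂ => z ^ (k + 1)) (((k + 1 : ℕ) : ℂ) * z ^ k) z := by
    simpa using hasDerivAt_pow (k + 1) z
  have h2 := (h1.inv (pow_ne_zero _ hz)).const_mul (-(1 / ((k : ℂ) + 1)))
  have e : -(1 / ((k : ℂ) + 1)) * (-(((k + 1 : ℕ) : ℂ) * z ^ k) / (z ^ (k + 1)) ^ 2) =
      (z ^ (k + 1 + 1))⁻¹ := by
    push_cast
    field_simp
    ring
  rw [e] at h2
  exact h2

theorem pos_integral {u v c b : ℝ} (huv : u < v) (hc : 0 < c) (hb : b ≠ 0) {f : ℝ → ℝ}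
    (hf : ∀ x, f x = c / (x ^ 2 + b ^ 2)) : 0 < ∫ x in u..v, f x := by
  have hb2 : 0 < b ^ 2 := by positivity
  have hfe : f = fun x => c / (x ^ 2 + b ^ 2) := funext hf
  rw [hfe]
  refine intervalIntegral.intervalIntegral_pos_of_pos ?_ (fun x => ?_) huv
  · refine Continuous.intervalIntegrable ?_ _ _
    refine Continuous.div (by fun_prop) (by fun_prop) fun x => ?_
    have := sq_nonneg x
    linarith
  · have := sq_nonneg x
    exact div_pos hc (by linarith)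

/-- the contour integral of `1/z` has positive imaginary part -/
theorem rectInt_inv_im (ha₁ : a₁ < 0) (ha₂ : 0 < a₂) (hb₁ : b₁ < 0) (hb₂ : 0 < b₂) :
    ∫ x in a₁..a₂, b₂ / (x ^ 2 + b₂ ^ 2) < (rectInt (fun z => (z ^ 1)⁻¹) a₁ a₂ b₁ b₂).im := by
  have hc := continuousOn_inv_pow 1
  have him : (rectInt (fun z => (z ^ 1)⁻¹) a₁ a₂ b₁ b₂).im =
      (∫ x in a₁..a₂, ((((x : ℂ) + b₁ * I) ^ 1)⁻¹).im) -
      (∫ x in a₁..a₂, ((((x : ℂ) + b₂ * I) ^ 1)⁻¹).im) +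
      (∫ y in b₁..b₂, ((((a₂ : ℂ) + y * I) ^ 1)⁻¹).re) -
      (∫ y in b₁..b₂, ((((a₁ : ℂ) + y * I) ^ 1)⁻¹).re) := by
    unfold rectInt
    simp only [add_im, sub_im, mul_im, I_re, I_im, zero_mul, one_mul, zero_add]
    have e1 : ∀ b : ℝ, b ≠ 0 → (∫ x in a₁..a₂, (((x : ℂ) + b * I) ^ 1)⁻¹).im =
        ∫ x in a₁..a₂, ((((x : ℂ) + b * I) ^ 1)⁻¹).im := fun b hb => by
      have := Complex.imCLM.intervalIntegral_comp_comm
        ((continuous_side_h hc hb).intervalIntegrable a₁ a₂ (μ := volume))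
      simpa using this.symm
    have e2 : ∀ a : ℝ, a ≠ 0 → (∫ y in b₁..b₂, (((a : ℂ) + y * I) ^ 1)⁻¹).re =
        ∫ y in b₁..b₂, ((((a : ℂ) + y * I) ^ 1)⁻¹).re := fun a ha => by
      have := Complex.reCLM.intervalIntegral_comp_comm
        ((continuous_side_v hc ha).intervalIntegrable b₁ b₂ (μ := volume))
      simpa using this.symm
    rw [e1 b₁ hb₁.ne, e1 b₂ hb₂.ne', e2 a₁ ha₁.ne, e2 a₂ ha₂.ne']
  have himf : ∀ x b : ℝ, ((((x : ℂ) + b * I) ^ 1)⁻¹).im = -b / (x ^ 2 + b ^ 2) := by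
    intro x b
    rw [pow_one, inv_im]
    simp [normSq_apply, pow_two]
  have href : ∀ a y : ℝ, ((((a : ℂ) + y * I) ^ 1)⁻¹).re = a / (a ^ 2 + y ^ 2) := by
    intro a y
    rw [pow_one, inv_re]
    simp [normSq_apply, pow_two]
  rw [him]
  simp only [himf, href]
  have p1 : 0 < ∫ x in a₁..a₂, -b₁ / (x ^ 2 + b₁ ^ 2) :=
    pos_integral (c := -b₁) (by linarith) (by linarith) hb₁.ne fun x => rfl
  have p3 : 0 < ∫ y in b₁..b₂, a₂ / (a₂ ^ 2 + y ^ 2) :=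
    pos_integral (c := a₂) (by linarith) (by linarith) ha₂.ne' fun x => by rw [add_comm]
  have p4 : 0 < ∫ y in b₁..b₂, -a₁ / (a₁ ^ 2 + y ^ 2) :=
    pos_integral (c := -a₁) (by linarith) (by linarith) ha₁.ne fun x => by rw [add_comm]
  have n2 : ∫ x in a₁..a₂, -b₂ / (x ^ 2 + b₂ ^ 2) = -∫ x in a₁..a₂, b₂ / (x ^ 2 + b₂ ^ 2) := by
    rw [← intervalIntegral.integral_neg]
    congr 1; funext x; ring
  have n4 : ∫ y in b₁..b₂, a₁ / (a₁ ^ 2 + y ^ 2) = -∫ y in b₁..b₂, -a₁ / (a₁ ^ 2 + y ^ 2) := by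
    rw [← intervalIntegral.integral_neg]
    congr 1; funext x; ring
  rw [n2, n4]
  linarith

theorem rectInt_inv_ne_zero (ha₁ : a₁ < 0) (ha₂ : 0 < a₂) (hb₁ : b₁ < 0) (hb₂ : 0 < b₂) :
    rectInt (fun z => (z ^ 1)⁻¹) a₁ a₂ b₁ b₂ ≠ 0 := by
  have h := rectInt_inv_im ha₁ ha₂ hb₁ hb₂
  have p2 : 0 < ∫ x in a₁..a₂, b₂ / (x ^ 2 + b₂ ^ 2) :=
    pos_integral (c := b₂) (by linarith) (by linarith) hb₂.ne' fun x => rfl
  intro h0
  rw [h0, zero_im] at h
  linarith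

theorem zero_mem_rect (ha₁ : a₁ < 0) (ha₂ : 0 < a₂) (hb₁ : b₁ < 0) (hb₂ : 0 < b₂) :
    (0 : ℂ) ∈ rect a₁ a₂ b₁ b₂ := by
  refine mem_reProdIm.mpr ⟨?_, ?_⟩
  · simp only [zero_re]; rw [Set.uIcc_of_le (by linarith)]; exact ⟨by linarith, by linarith⟩
  · simp only [zero_im]; rw [Set.uIcc_of_le (by linarith)]; exact ⟨by linarith, by linarith⟩

theorem rectInt_analytic {H : ℂ → ℂ} (hH : ∀ z ∈ rect a₁ a₂ b₁ b₂, AnalyticAt ℂ H z) :
    rectInt H a₁ a₂ b₁ b₂ = 0 := by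
  have h := Complex.integral_boundary_rect_eq_zero_of_differentiableOn H
    (a₁ + b₁ * I) (a₂ + b₂ * I) (fun z hz => (hH z (by
      simpa [rect] using hz)).differentiableAt.differentiableWithinAt)
  simpa [rectInt] using h

theorem analyticAt_dslope {H : ℂ → ℂ} (h0 : AnalyticAt ℂ H 0) {z : ℂ} (hz : AnalyticAt ℂ H z) :
    AnalyticAt ℂ (dslope H 0) z := by
  by_cases hz0 : z = 0
  · subst hz0
    obtain ⟨p, hp⟩ := h0
    exact ⟨p.fslope, hp.has_fpower_series_dslope_fslope⟩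
  · have h1 : dslope H 0 =ᶠ[𝓝 z] slope H 0 := dslope_eventuallyEq_slope_of_ne H hz0
    refine AnalyticAt.congr ?_ h1.symm
    have h2 : slope H 0 = fun w => w⁻¹ * (H w - H 0) := by
      funext w; simp [slope_def_field, div_eq_inv_mul]
    rw [h2]
    exact (analyticAt_id.inv hz0).mul (hz.sub analyticAt_const)

theorem residue (ha₁ : a₁ < 0) (ha₂ : 0 < a₂) (hb₁ : b₁ < 0) (hb₂ : 0 < b₂) (k : ℕ) :
    ∀ {H : ℂ → ℂ}, (∀ z ∈ rect a₁ a₂ b₁ b₂, AnalyticAt ℂ H z) →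
    rectInt (fun z => H z / z ^ (k + 1)) a₁ a₂ b₁ b₂ =
      ((Function.swap dslope 0)^[k] H) 0 * rectInt (fun z => (z ^ 1)⁻¹) a₁ a₂ b₁ b₂ := by
  have h0mem : (0 : ℂ) ∈ rect a₁ a₂ b₁ b₂ := by
    refine mem_reProdIm.mpr ⟨?_, ?_⟩
    · simp only [zero_re]; rw [Set.uIcc_of_le (by linarith)]; exact ⟨by linarith, by linarith⟩
    · simp only [zero_im]; rw [Set.uIcc_of_le (by linarith)]; exact ⟨by linarith, by linarith⟩
  have hcinv : ∀ (c : ℂ) (p : ℕ), ContinuousOn (fun z : ℂ => c * (z ^ p)⁻¹)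
      (rect a₁ a₂ b₁ b₂ \ {0}) := fun c p =>
    ((continuousOn_inv_pow p).mono fun z hz => hz.2).const_smul c
  induction k with
  | zero =>
    intro H hH
    have hd : ∀ z ∈ rect a₁ a₂ b₁ b₂, AnalyticAt ℂ (dslope H 0) z := fun z hz =>
      analyticAt_dslope (hH 0 h0mem) (hH z hz)
    have h1 : ∀ z : ℂ, z ≠ 0 → H z / z ^ (0 + 1) = H 0 * (z ^ 1)⁻¹ + dslope H 0 z := by
      intro z hz
      rw [dslope_of_ne H hz, slope_def_field, sub_zero, zero_add, pow_one]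
      field_simp
      ring
    rw [rectInt_congr h1 ha₁.ne ha₂.ne' hb₁.ne hb₂.ne',
      rectInt_add (hcinv _ _) (fun z hz => (hd z hz.1).continuousAt.continuousWithinAt)
        ha₁.ne ha₂.ne' hb₁.ne hb₂.ne', rectInt_analytic hd, rectInt_const_mul]
    simp
  | succ k ih =>
    intro H hH
    have hd : ∀ z ∈ rect a₁ a₂ b₁ b₂, AnalyticAt ℂ (dslope H 0) z := fun z hz =>
      analyticAt_dslope (hH 0 h0mem) (hH z hz)
    have h1 : ∀ z : ℂ, z ≠ 0 → H z / z ^ (k + 1 + 1) =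
        H 0 * (z ^ (k + 1 + 1))⁻¹ + dslope H 0 z / z ^ (k + 1) := by
      intro z hz
      rw [dslope_of_ne H hz, slope_def_field, sub_zero, div_div, ← pow_succ', div_eq_mul_inv,
        div_eq_mul_inv]
      ring
    have hc : ContinuousOn (fun z => dslope H 0 z / z ^ (k + 1)) (rect a₁ a₂ b₁ b₂ \ {0}) := by
      intro z hz
      have hz0 : z ≠ 0 := hz.2
      have hpc : ContinuousAt (fun z : ℂ => z ^ (k + 1)) z := (continuous_pow (k + 1)).continuousAt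
      exact ((hd z hz.1).continuousAt.div hpc (pow_ne_zero _ hz0)).continuousWithinAt
    rw [rectInt_congr h1 ha₁.ne ha₂.ne' hb₁.ne hb₂.ne',
      rectInt_add (hcinv _ _) hc ha₁.ne ha₂.ne' hb₁.ne hb₂.ne', ih hd, rectInt_const_mul,
      rectInt_inv_pow (k + 1 + 1) (by omega) ha₁.ne ha₂.ne' hb₁.ne hb₂.ne', mul_zero, zero_add]
    rfl

/-- the iterated divided difference is the Taylor coefficient -/
theorem iteratedDeriv_eq_zero_of_iterate (k : ℕ) {H : ℂ → ℂ} (hH : AnalyticAt ℂ H 0)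
    (h2 : ((Function.swap dslope 0)^[k] H) 0 = 0) : iteratedDeriv k H 0 = 0 := by
  obtain ⟨p, hp⟩ := hH
  have h3 := (hp.has_fpower_series_iterate_dslope_fslope k).coeff_zero 1
  rw [h2, ← FormalMultilinearSeries.coeff, FormalMultilinearSeries.coeff_iterate_fslope,
    zero_add] at h3
  obtain ⟨r, hr⟩ := hp
  have h4 := hr.factorial_smul 1 k
  rw [iteratedDeriv_eq_iteratedFDeriv, ← h4]
  have h5 : (p k) (fun _ => 1) = p.coeff k := rfl
  rw [h5, h3, smul_zero]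

end MP_a24efc.Rect
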