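import Pool.Agent.Lib_MP_a24efc.Theta
import Pool.Agent.Lib_MP_a24efc.Rect

/-!
The elliptic function `G x = e^{s x} ∏ P(d_i x) / ∏ P(w_j x)`, its orders and its residue at `0`.
-/

namespace MP_a24efc.Elliptic

open Complex Filter Topology MeasureTheory MP_a24efc.Theta MP_a24efc.Rect

variable {α β : Type*} [Fintype α] [Fintype β]

/-- the elliptic function attached to weights `w` and degrees `d` -/
noncomputable def G (q : ℂ) (w : α → ℕ) (d : β → ℕ) (x : ℂ) : ℂ :=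
  exp (((∑ j, (w j : ℂ)) - ∑ i, (d i : ℂ)) / 2 * x) *
    ((∏ i, P q (d i * x)) / ∏ j, P q (w j * x))

variable {q : ℂ} {w : α → ℕ} {d : β → ℕ}

theorem sum_sq_modEq {γ : Type*} [Fintype γ] (v : γ → ℕ) :
    ((∑ j, v j : ℕ) : ℤ) ≡ ((∑ j, v j ^ 2 : ℕ) : ℤ) [ZMOD 2] := by
  have : ∀ n : ℕ, (n : ℤ) ≡ (n : ℤ) ^ 2 [ZMOD 2] := fun n => by
    rw [Int.modEq_iff_dvd]
    rcases Int.even_or_odd (n : ℤ) with ⟨c, hc⟩ | ⟨c, hc⟩
    · exact ⟨2 * c ^ 2 - c, by rw [hc]; ring⟩
    · exact ⟨2 * c ^ 2 + c, by rw [hc]; ring⟩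
  rw [Int.modEq_iff_dvd]
  push_cast
  rw [← Finset.sum_sub_distrib]
  exact Finset.dvd_sum fun j _ => Int.modEq_iff_dvd.mp (this (v j))

theorem exists_half (hsq : ∑ i, d i ^ 2 = ∑ j, w j ^ 2) :
    ∃ S : ℤ, ((∑ j, w j : ℕ) : ℤ) - ((∑ i, d i : ℕ) : ℤ) = 2 * S ∧
      ((∑ j, (w j : ℂ)) - ∑ i, (d i : ℂ)) / 2 = S := by
  have h1 := sum_sq_modEq w
  have h2 := sum_sq_modEq d
  rw [hsq] at h2
  obtain ⟨S, hS⟩ := Int.modEq_iff_dvd.mp (h2.trans h1.symm)
  refine ⟨S, hS, ?_⟩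
  have h3 : (∑ j, (w j : ℂ)) - ∑ i, (d i : ℂ) = 2 * (S : ℂ) := by
    have := congrArg (fun z : ℤ => (z : ℂ)) hS
    push_cast at this
    exact this
  rw [h3]; ring

theorem G_add_two_pi (hsq : ∑ i, d i ^ 2 = ∑ j, w j ^ 2) (x : ℂ) :
    G q w d (x + 2 * Real.pi * I) = G q w d x := by
  obtain ⟨S, -, hS⟩ := exists_half hsq
  unfold G
  rw [hS]
  have h1 : ∀ m : ℕ, P q (m * (x + 2 * Real.pi * I)) = P q (m * x) := fun m => by
    have : (m : ℂ) * (x + 2 * Real.pi * I) = m * x + ((m : ℤ) : ℂ) * (2 * Real.pi * I) := by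
      push_cast; ring
    rw [this, P_add_int_two_pi]
  simp only [h1]
  congr 1
  rw [mul_add, exp_add]
  have : exp ((S : ℂ) * (2 * Real.pi * I)) = 1 := exp_int_mul_two_pi_mul_I S
  rw [this, mul_one]

theorem prod_shift {L : ℂ} (hq : ‖q‖ < 1) (hL : exp L = q) {γ : Type*} [Fintype γ] (v : γ → ℕ)
    (x : ℂ) : ∏ i, P q (v i * (x + L)) =
      ((-1) ^ (∑ i, v i) * exp (-(∑ i, (v i : ℂ) ^ 2) * x -
        L * ((∑ i, (v i : ℂ) ^ 2) - ∑ i, (v i : ℂ)) / 2)) * ∏ i, P q (v i * x) := by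
  have hP : ∀ m : ℕ, P q (m * (x + L)) =
      ((-1) ^ m * exp (-(m * (m * x)) - L * (m * (m - 1) / 2))) * P q (m * x) := fun m => by
    rw [mul_add, P_add_nat_mul hq hL]
  simp only [hP]
  rw [Finset.prod_mul_distrib, Finset.prod_mul_distrib, Finset.prod_pow_eq_pow_sum, ← exp_sum]
  congr 3
  rw [Finset.sum_sub_distrib]
  congr 1
  · rw [Finset.sum_neg_distrib, neg_mul, Finset.sum_mul]
    congr 1
    exact Finset.sum_congr rfl fun i _ => by ring
  · rw [← Finset.sum_sub_distrib, Finset.mul_sum, Finset.sum_div]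
    exact Finset.sum_congr rfl fun i _ => by ring

theorem G_add {L : ℂ} (hq : ‖q‖ < 1) (hL : exp L = q) (hsq : ∑ i, d i ^ 2 = ∑ j, w j ^ 2) (x : ℂ) :
    G q w d (x + L) = G q w d x := by
  obtain ⟨S, hS1, hS⟩ := exists_half hsq
  unfold G
  rw [prod_shift hq hL w, prod_shift hq hL d, hS]
  have hsign : (-1 : ℂ) ^ (∑ i, d i) = (-1 : ℂ) ^ (∑ j, w j) := by
    have : (-1 : ℂ) ^ ((∑ j, w j : ℕ) : ℤ) = (-1 : ℂ) ^ ((∑ i, d i : ℕ) : ℤ) := by
      have e : ((∑ j, w j : ℕ) : ℤ) = ((∑ i, d i : ℕ) : ℤ) + 2 * S := by linarith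
      rw [e, zpow_add₀ (by norm_num), zpow_mul]
      norm_num
    rw [zpow_natCast, zpow_natCast] at this
    exact this.symm
  have hsqC : ∑ i, (d i : ℂ) ^ 2 = ∑ j, (w j : ℂ) ^ 2 := by exact_mod_cast hsq
  set D := ∑ j, (w j : ℂ) ^ 2 with hD
  set W := ∑ j, (w j : ℂ)
  set V := ∑ i, (d i : ℂ)
  have hV : V = W - 2 * S := by linear_combination -2 * hS
  rw [hsqC, hsign, hV]
  have hexp : exp (S * (x + L)) * (exp (-D * x - L * (D - (W - 2 * S)) / 2)) =
      exp (S * x) * exp (-D * x - L * (D - W) / 2) := by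
    rw [← exp_add, ← exp_add]
    congr 1
    ring
  have hne : exp (-D * x - L * (D - W) / 2) ≠ 0 := exp_ne_zero _
  have hs : ((-1 : ℂ) ^ (∑ j, w j)) ≠ 0 := pow_ne_zero _ (by norm_num)
  have hexp2 : exp (S * (x + L)) * (exp (-D * x - L * (D - (W - 2 * S)) / 2) /
      exp (-D * x - L * (D - W) / 2)) = exp (S * x) := by
    rw [← mul_div_assoc, hexp, mul_div_assoc, div_self hne, mul_one]
  rw [mul_div_mul_comm, mul_div_mul_left _ _ hs, ← mul_assoc, hexp2]

/-! ### orders -/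

theorem mero_P_mul (hq : ‖q‖ < 1) (m : ℕ) (x : ℂ) :
    MeromorphicAt (fun z => P q (m * z)) x := by
  have : AnalyticAt ℂ (fun z : ℂ => P q (m * z)) x := by
    have h1 : AnalyticAt ℂ (fun z : ℂ => (m : ℂ) * z) x := by fun_prop
    exact (analyticAt_P hq _).comp h1
  exact this.meromorphicAt

open Classical in
theorem order_prod (hq : ‖q‖ < 1) {γ : Type*} [Fintype γ] (v : γ → ℕ)
    (hv : ∀ i, 0 < v i) (x : ℂ) :
    meromorphicOrderAt (fun z => ∏ i, P q (v i * z)) x =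
      (((Finset.univ.filter (fun i => Lat q (v i * x))).card : ℤ) : WithTop ℤ) := by
  rw [meromorphicOrderAt_fun_prod (fun i _ => mero_P_mul hq (v i) x)]
  have h1 : ∀ i, meromorphicOrderAt (fun z => P q (v i * z)) x =
      ((if Lat q (v i * x) then (1 : ℤ) else 0 : ℤ) : WithTop ℤ) := fun i => by
    rw [order_P_mul hq _ (hv i)]
    split_ifs <;> rfl
  rw [Finset.sum_congr rfl fun i _ => h1 i, ← WithTop.coe_sum, Finset.sum_boole]

theorem meromorphicAt_G (hq : ‖q‖ < 1) (x : ℂ) : MeromorphicAt (G q w d) x := by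
  have h1 : MeromorphicAt (fun z => ∏ i, P q (d i * z)) x :=
    MeromorphicAt.fun_prod fun i _ => mero_P_mul hq (d i) x
  have h2 : MeromorphicAt (fun z => ∏ j, P q (w j * z)) x :=
    MeromorphicAt.fun_prod fun j _ => mero_P_mul hq (w j) x
  have h3 : MeromorphicAt (fun z => exp (((∑ j, (w j : ℂ)) - ∑ i, (d i : ℂ)) / 2 * z)) x := by
    have : AnalyticAt ℂ (fun z => exp (((∑ j, (w j : ℂ)) - ∑ i, (d i : ℂ)) / 2 * z)) x := by
      fun_prop
    exact this.meromorphicAt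
  exact h3.mul (h1.div h2)

open Classical in
theorem order_G (hq : ‖q‖ < 1) (hw : ∀ j, 0 < w j) (hd : ∀ i, 0 < d i) (x : ℂ) :
    meromorphicOrderAt (G q w d) x =
      ((((Finset.univ.filter (fun i => Lat q (d i * x))).card : ℤ) -
        ((Finset.univ.filter (fun j => Lat q (w j * x))).card : ℤ) : ℤ) : WithTop ℤ) := by
  have h1 : MeromorphicAt (fun z => ∏ i, P q (d i * z)) x :=
    MeromorphicAt.fun_prod fun i _ => mero_P_mul hq (d i) x
  have h2 : MeromorphicAt (fun z => ∏ j, P q (w j * z)) x :=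
    MeromorphicAt.fun_prod fun j _ => mero_P_mul hq (w j) x
  have h3 : AnalyticAt ℂ (fun z => exp (((∑ j, (w j : ℂ)) - ∑ i, (d i : ℂ)) / 2 * z)) x := by
    fun_prop
  have h4 : G q w d = (fun z => exp (((∑ j, (w j : ℂ)) - ∑ i, (d i : ℂ)) / 2 * z)) *
      ((fun z => ∏ i, P q (d i * z)) / (fun z => ∏ j, P q (w j * z))) := rfl
  rw [h4, meromorphicOrderAt_mul_of_ne_zero h3 (exp_ne_zero _), meromorphicOrderAt_div h1 h2,
    order_prod hq d hd, order_prod hq w hw]
  rfl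

/-! ### lattice points -/

theorem lat_add {a b : ℂ} (ha : Lat q a) (hb : Lat q b) : Lat q (a + b) := by
  rcases eq_or_ne q 0 with rfl | hq0
  · rw [lat_zero_iff] at ha hb ⊢
    rw [exp_add, ha, hb, one_mul]
  obtain ⟨k, hk⟩ := ha
  obtain ⟨l, hl⟩ := hb
  exact ⟨k + l, by rw [exp_add, hk, hl, zpow_add₀ hq0]⟩

theorem lat_neg {a : ℂ} (ha : Lat q a) : Lat q (-a) := by
  obtain ⟨k, hk⟩ := ha
  exact ⟨-k, by rw [exp_neg, hk, zpow_neg]⟩

theorem lat_zero : Lat q 0 := ⟨0, by simp⟩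

/-- the subgroup of integers `k` with `k x ∈ Λ` -/
def latGroup (q x : ℂ) : AddSubgroup ℤ where
  carrier := {k | Lat q (k * x)}
  zero_mem' := by simpa using lat_zero
  add_mem' := fun {a b} ha hb => by
    have : Lat q ((a : ℂ) * x + (b : ℂ) * x) := lat_add ha hb
    simpa [add_mul] using this
  neg_mem' := fun {a} ha => by
    have : Lat q (-((a : ℂ) * x)) := lat_neg ha
    simpa using this

open Classical in
theorem card_le_card (hw : ∀ j, 0 < w j)
    (hcount : ∀ m, 2 ≤ m → (Finset.univ.filter (fun j => m ∣ w j)).card ≤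
      (Finset.univ.filter (fun i => m ∣ d i)).card) {x : ℂ} (hx : ¬ Lat q x) :
    (Finset.univ.filter (fun j => Lat q (w j * x))).card ≤
      (Finset.univ.filter (fun i => Lat q (d i * x))).card := by
  obtain ⟨a, ha⟩ := Int.subgroup_cyclic (latGroup q x)
  have hmem : ∀ k : ℤ, Lat q (k * x) ↔ a ∣ k := fun k => by
    have h1 : k ∈ latGroup q x ↔ Lat q (k * x) := Iff.rfl
    rw [← h1, ha, AddSubgroup.mem_closure_singleton]
    constructor
    · rintro ⟨n, hn⟩
      exact ⟨n, by rw [← hn, smul_eq_mul, mul_comm]⟩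
    · rintro ⟨n, hn⟩
      exact ⟨n, by rw [hn, smul_eq_mul, mul_comm]⟩
  have hmem' : ∀ k : ℕ, Lat q (k * x) ↔ a.natAbs ∣ k := fun k => by
    have := hmem k
    rw [Int.cast_natCast] at this
    rw [this, ← Int.natAbs_dvd_natAbs, Int.natAbs_natCast]
  have ha1 : a.natAbs ≠ 1 := by
    intro h
    apply hx
    have := (hmem' 1).mpr (by rw [h])
    simpa using this
  simp only [hmem']
  rcases Nat.eq_zero_or_pos a.natAbs with h0 | hpos
  · rw [h0]
    have : (Finset.univ.filter (fun j => 0 ∣ w j)) = ∅ := by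
      ext j
      simp only [Finset.mem_filter, Finset.mem_univ, true_and, zero_dvd_iff,
        Finset.notMem_empty, iff_false]
      exact (hw j).ne'
    rw [this]
    simp
  · exact hcount _ (by omega)

/-- the only lattice point of the fundamental rectangle is the origin -/
theorem lat_rect (hq : ‖q‖ < 1) (hq0 : q ≠ 0) {x : ℂ} (hx : Lat q x)
    (hmem : x ∈ rect (Real.log ‖q‖ / 2) (-Real.log ‖q‖ / 2) (-Real.pi) Real.pi) : x = 0 := by
  obtain ⟨k, hk⟩ := hx
  have hnq : 0 < ‖q‖ := norm_pos_iff.mpr hq0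
  have hlog : Real.log ‖q‖ < 0 := Real.log_neg hnq hq
  have hmem' := mem_reProdIm.mp hmem
  rw [Set.uIcc_of_le (by linarith), Set.uIcc_of_le (by linarith [Real.pi_pos])] at hmem'
  obtain ⟨⟨h1, h2⟩, h3, h4⟩ := hmem'
  have hre : x.re = k * Real.log ‖q‖ := by
    have := congrArg (fun z => Real.log ‖z‖) hk
    simpa [Complex.norm_exp, Real.log_exp, Real.log_zpow] using this
  have hk0 : k = 0 := by
    rw [hre] at h1 h2
    have h5 : ((k : ℝ) - 1 / 2) * Real.log ‖q‖ ≥ 0 := by linarith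
    have h6 : ((k : ℝ) + 1 / 2) * Real.log ‖q‖ ≤ 0 := by linarith
    have h7 : (k : ℝ) ≤ 1 / 2 := by
      by_contra hcon
      push Not at hcon
      have := mul_neg_of_pos_of_neg (by linarith : (0 : ℝ) < (k : ℝ) - 1 / 2) hlog
      linarith
    have h8 : -(1 / 2 : ℝ) ≤ k := by
      by_contra hcon
      push Not at hcon
      have := mul_pos_of_neg_of_neg (by linarith : (k : ℝ) + 1 / 2 < 0) hlog
      linarith
    have h9 : k < 1 := by exact_mod_cast (by linarith : (k : ℝ) < 1)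
    have h10 : -1 < k := by exact_mod_cast (by linarith : (-1 : ℝ) < k)
    omega
  subst hk0
  rw [zpow_zero] at hk
  obtain ⟨l, hl⟩ := exp_eq_one_iff.mp hk
  have him : x.im = l * (2 * Real.pi) := by
    have := congrArg Complex.im hl
    simpa using this
  have hpi := Real.pi_pos
  have hl0 : l = 0 := by
    rw [him] at h3 h4
    have h5 : (l : ℝ) * 2 ≤ 1 := by
      by_contra hcon
      push Not at hcon
      nlinarith
    have h6 : -1 ≤ (l : ℝ) * 2 := by
      by_contra hcon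
      push Not at hcon
      nlinarith
    have h9 : l < 1 := by exact_mod_cast (by linarith : (l : ℝ) < 1)
    have h10 : -1 < l := by exact_mod_cast (by linarith : (-1 : ℝ) < l)
    omega
  rw [hl, hl0]
  simp

theorem lat_countable (q : ℂ) : {z : ℂ | Lat q z}.Countable := by
  have : {z : ℂ | Lat q z} = ⋃ k : ℤ, {z : ℂ | exp z = q ^ k} := by
    ext z; simp [Theta.Lat]
  rw [this]
  refine Set.countable_iUnion fun k => ?_
  by_cases h : ∃ z₀, exp z₀ = q ^ k
  · obtain ⟨z₀, hz₀⟩ := h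
    refine (Set.countable_range (fun l : ℤ => z₀ + l * (2 * Real.pi * I))).mono fun z hz => ?_
    have : exp z = exp z₀ := by rw [hz₀]; exact hz
    obtain ⟨l, hl⟩ := exp_eq_exp_iff_exists_int.mp this
    exact ⟨l, hl.symm⟩
  · have : {z : ℂ | exp z = q ^ k} = ∅ := by
      ext z; simp only [Set.mem_ofPred_eq, Set.mem_empty_iff_false, iff_false]
      exact fun hz => h ⟨z, hz⟩
    rw [this]; exact Set.countable_empty

/-- a doubly periodic function has vanishing contour integral over the fundamental rectangle -/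
theorem rectInt_periodic {f : ℂ → ℂ} {L : ℂ} (h1 : ∀ x, f (x + 2 * Real.pi * I) = f x)
    (h2 : ∀ x, f (x + L) = f x) {a₁ a₂ : ℝ} (ha : a₂ = a₁ - L.re) :
    rectInt f a₁ a₂ (-Real.pi) Real.pi = 0 := by
  unfold rectInt
  have e1 : ∀ x : ℝ, f (x + (Real.pi : ℝ) * I) = f (x + ((-Real.pi : ℝ) : ℂ) * I) := fun x => by
    rw [← h1 (x + ((-Real.pi : ℝ) : ℂ) * I)]
    congr 1
    push_cast; ring
  have e2 : ∫ y in (-Real.pi)..Real.pi, f (a₁ + y * I) =
      ∫ y in (-Real.pi)..Real.pi, f (a₂ + y * I) := by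
    have h3 : ∀ y : ℝ, f (a₁ + y * I) = f (a₂ + ((y - L.im : ℝ) : ℂ) * I) := fun y => by
      rw [← h2 (a₂ + ((y - L.im : ℝ) : ℂ) * I)]
      congr 1
      rw [ha]
      apply Complex.ext <;> simp
    simp only [h3]
    rw [intervalIntegral.integral_comp_sub_right (fun y : ℝ => f (a₂ + (y : ℂ) * I)) L.im]
    have hper : Function.Periodic (fun y : ℝ => f (a₂ + (y : ℂ) * I)) (2 * Real.pi) := fun y => by
      show f (a₂ + ((y + 2 * Real.pi : ℝ) : ℂ) * I) = f (a₂ + (y : ℂ) * I)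
      rw [← h1 (a₂ + (y : ℂ) * I)]
      congr 1
      push_cast; ring
    have h5 := hper.intervalIntegral_add_eq (-Real.pi - L.im) (-Real.pi)
    have h6 : -Real.pi - L.im + 2 * Real.pi = Real.pi - L.im := by ring
    have h7 : -Real.pi + 2 * Real.pi = Real.pi := by ring
    rw [h6, h7] at h5
    exact h5
  simp only [e1, e2]
  ring

/-! ### the residue at the origin vanishes -/

theorem countable_side_h (q : ℂ) (w : α → ℕ) (hw : ∀ j, 0 < w j) (b : ℝ) :
    {x : ℝ | ∃ j, Lat q (w j * ((x : ℂ) + b * I))}.Countable := by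
  have : {x : ℝ | ∃ j, Lat q (w j * ((x : ℂ) + b * I))} =
      ⋃ j, (fun x : ℝ => (w j : ℂ) * ((x : ℂ) + b * I)) ⁻¹' {z | Lat q z} := by
    ext x; simp
  rw [this]
  refine Set.countable_iUnion fun j => (lat_countable q).preimage_of_injOn fun x _ y _ hxy => ?_
  have hw0 : (w j : ℂ) ≠ 0 := by exact_mod_cast (hw j).ne'
  have h1 := mul_left_cancel₀ hw0 hxy
  simpa using h1

theorem countable_side_v (q : ℂ) (w : α → ℕ) (hw : ∀ j, 0 < w j) (a : ℝ) :
    {y : ℝ | ∃ j, Lat q (w j * ((a : ℂ) + y * I))}.Countable := by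
  have : {y : ℝ | ∃ j, Lat q (w j * ((a : ℂ) + y * I))} =
      ⋃ j, (fun y : ℝ => (w j : ℂ) * ((a : ℂ) + y * I)) ⁻¹' {z | Lat q z} := by
    ext x; simp
  rw [this]
  refine Set.countable_iUnion fun j => (lat_countable q).preimage_of_injOn fun x _ y _ hxy => ?_
  have hw0 : (w j : ℂ) ≠ 0 := by exact_mod_cast (hw j).ne'
  have h1 := mul_left_cancel₀ hw0 hxy
  simpa using h1

theorem analyticAt_G (hq : ‖q‖ < 1) {z : ℂ} (hz : ∀ j, ¬ Lat q (w j * z)) :
    AnalyticAt ℂ (G q w d) z := by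
  have hP : ∀ m : ℕ, AnalyticAt ℂ (fun z : ℂ => P q (m * z)) z := fun m => by
    have h1 : AnalyticAt ℂ (fun z : ℂ => (m : ℂ) * z) z := by fun_prop
    exact (analyticAt_P hq _).comp h1
  have h1 : AnalyticAt ℂ (fun z => ∏ i, P q (d i * z)) z :=
    Finset.analyticAt_fun_prod _ fun i _ => hP (d i)
  have h2 : AnalyticAt ℂ (fun z => ∏ j, P q (w j * z)) z :=
    Finset.analyticAt_fun_prod _ fun j _ => hP (w j)
  have h3 : AnalyticAt ℂ (fun z => exp (((∑ j, (w j : ℂ)) - ∑ i, (d i : ℂ)) / 2 * z)) z := by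
    fun_prop
  have h4 : (∏ j, P q (w j * z)) ≠ 0 :=
    Finset.prod_ne_zero_iff.mpr fun j _ => P_ne_zero hq (hz j)
  exact h3.mul (h1.div h2 h4)

/-- the regularised function `z^(k+1) G(z)` -/
noncomputable def reg (q : ℂ) (w : α → ℕ) (d : β → ℕ) (k : ℕ) : ℂ → ℂ :=
  toMeromorphicNFOn (fun z => z ^ (k + 1) * G q w d z) Set.univ

theorem meromorphicOn_F (hq : ‖q‖ < 1) (w : α → ℕ) (d : β → ℕ) (k : ℕ) :
    MeromorphicOn (fun z => z ^ (k + 1) * G q w d z) Set.univ := fun z _ => by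
  have : AnalyticAt ℂ (fun z : ℂ => z ^ (k + 1)) z := by fun_prop
  exact this.meromorphicAt.mul (meromorphicAt_G hq z)

theorem reg_analyticAt (hq : ‖q‖ < 1) (hw : ∀ j, 0 < w j) (hd : ∀ i, 0 < d i)
    (hcount : ∀ m, 2 ≤ m → (Finset.univ.filter (fun j => m ∣ w j)).card ≤
      (Finset.univ.filter (fun i => m ∣ d i)).card)
    (k : ℕ) (hk : Fintype.card α = Fintype.card β + (k + 1)) {z : ℂ} (hz : z = 0 ∨ ¬ Lat q z) :
    AnalyticAt ℂ (reg q w d k) z := by
  classical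
  set F : ℂ → ℂ := fun z => z ^ (k + 1) * G q w d z with hF
  have hFm : MeromorphicOn F Set.univ := meromorphicOn_F hq w d k
  have hHnf := meromorphicNFOn_toMeromorphicNFOn F Set.univ
  refine ((hHnf (Set.mem_univ z)).meromorphicOrderAt_nonneg_iff_analyticAt).mp ?_
  rw [meromorphicOrderAt_toMeromorphicNFOn hFm (Set.mem_univ z)]
  have han : AnalyticAt ℂ (fun z : ℂ => z ^ (k + 1)) z := by fun_prop
  have h1 : meromorphicOrderAt F z =
      meromorphicOrderAt (fun z : ℂ => z ^ (k + 1)) z + meromorphicOrderAt (G q w d) z :=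
    meromorphicOrderAt_mul han.meromorphicAt (meromorphicAt_G hq z)
  rw [h1, order_G hq hw hd]
  rcases hz with rfl | hz
  · have h2 : meromorphicOrderAt (fun z : ℂ => z ^ (k + 1)) 0 = ((k + 1 : ℕ) : WithTop ℤ) := by
      have := meromorphicOrderAt_pow (f := id) (x := (0 : ℂ)) (n := k + 1)
        (MeromorphicAt.id 0)
      rw [meromorphicOrderAt_id, mul_one] at this
      exact this
    rw [h2]
    have h3 : (Finset.univ.filter (fun i => Lat q (d i * 0))) = Finset.univ := by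
      ext i; simp [lat_zero]
    have h4 : (Finset.univ.filter (fun j => Lat q (w j * 0))) = Finset.univ := by
      ext i; simp [lat_zero]
    rw [h3, h4, Finset.card_univ, Finset.card_univ, hk]
    have h5 : ((k + 1 : ℕ) : WithTop ℤ) +
        (((Fintype.card β : ℤ) - ((Fintype.card β + (k + 1) : ℕ) : ℤ) : ℤ) : WithTop ℤ) =
        ((0 : ℤ) : WithTop ℤ) := by
      have : ((k + 1 : ℕ) : WithTop ℤ) = (((k + 1 : ℕ) : ℤ) : WithTop ℤ) := rfl
      rw [this, ← WithTop.coe_add]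
      congr 1
      push_cast; ring
    rw [h5]
    exact le_refl _
  · have h2 : 0 ≤ meromorphicOrderAt (fun z : ℂ => z ^ (k + 1)) z :=
      han.meromorphicOrderAt_nonneg
    have h3 := card_le_card (d := d) hw hcount hz
    refine add_nonneg h2 ?_
    have h4 : (0 : ℤ) ≤ ((Finset.univ.filter (fun i => Lat q (d i * z))).card : ℤ) -
        ((Finset.univ.filter (fun j => Lat q (w j * z))).card : ℤ) := by omega
    exact_mod_cast h4

theorem reg_eventuallyEq (hq : ‖q‖ < 1) (w : α → ℕ) (d : β → ℕ) (k : ℕ) :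
    reg q w d k =ᶠ[𝓝[≠] 0] (fun z => z ^ (k + 1) * G q w d z) :=
  (meromorphicOn_F hq w d k).toMeromorphicNFOn_eq_self_on_nhdsNE (Set.mem_univ 0)

theorem reg_eq (hq : ‖q‖ < 1) {k : ℕ} {z : ℂ} (hz0 : z ≠ 0) (hz : ∀ j, ¬ Lat q (w j * z)) :
    reg q w d k z / z ^ (k + 1) = G q w d z := by
  set F : ℂ → ℂ := fun z => z ^ (k + 1) * G q w d z with hF
  have hFan : AnalyticAt ℂ F z := by
    have : AnalyticAt ℂ (fun z : ℂ => z ^ (k + 1)) z := by fun_prop
    exact this.mul (analyticAt_G hq hz)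
  have h1 : reg q w d k z = F z := by
    rw [reg, toMeromorphicNFOn_eq_toMeromorphicNFAt (meromorphicOn_F hq w d k) (Set.mem_univ z),
      toMeromorphicNFAt_eq_self.mpr hFan.meromorphicNFAt]
  rw [h1, hF]
  field_simp

/-- the contour integral of `G` over a rectangle containing no lattice point besides `0` -/
theorem rectInt_G (hq : ‖q‖ < 1) (hw : ∀ j, 0 < w j) (hd : ∀ i, 0 < d i)
    (hcount : ∀ m, 2 ≤ m → (Finset.univ.filter (fun j => m ∣ w j)).card ≤
      (Finset.univ.filter (fun i => m ∣ d i)).card)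
    (k : ℕ) (hk : Fintype.card α = Fintype.card β + (k + 1)) {a₁ a₂ b₁ b₂ : ℝ}
    (ha₁ : a₁ < 0) (ha₂ : 0 < a₂) (hb₁ : b₁ < 0) (hb₂ : 0 < b₂)
    (hlat : ∀ z ∈ rect a₁ a₂ b₁ b₂, Lat q z → z = 0) :
    rectInt (G q w d) a₁ a₂ b₁ b₂ = ((Function.swap dslope 0)^[k] (reg q w d k)) 0 *
      rectInt (fun z => (z ^ 1)⁻¹) a₁ a₂ b₁ b₂ := by
  rw [← residue ha₁ ha₂ hb₁ hb₂ k (H := reg q w d k) (fun z hz => reg_analyticAt hq hw hd hcount k
    hk (by
      by_cases hl : Lat q z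
      · exact Or.inl (hlat z hz hl)
      · exact Or.inr hl))]
  unfold rectInt
  have sh : ∀ b : ℝ, b ≠ 0 → ∀ u v : ℝ,
      ∫ x in u..v, G q w d ((x : ℂ) + b * I) =
      ∫ x in u..v, (fun z => reg q w d k z / z ^ (k + 1)) ((x : ℂ) + b * I) := fun b hb u v => by
    refine intervalIntegral.integral_congr_ae ?_
    filter_upwards [(countable_side_h q w hw b).ae_notMem volume] with x hx _
    exact (reg_eq hq (side_ne (Or.inr hb)) (fun j hj => hx ⟨j, hj⟩)).symm
  have sv : ∀ a : ℝ, a ≠ 0 → ∀ u v : ℝ,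
      ∫ y in u..v, G q w d ((a : ℂ) + y * I) =
      ∫ y in u..v, (fun z => reg q w d k z / z ^ (k + 1)) ((a : ℂ) + y * I) := fun a ha u v => by
    refine intervalIntegral.integral_congr_ae ?_
    filter_upwards [(countable_side_v q w hw a).ae_notMem volume] with x hx _
    exact (reg_eq hq (side_ne (Or.inl ha)) (fun j hj => hx ⟨j, hj⟩)).symm
  rw [sh _ hb₁.ne, sh _ hb₂.ne', sv _ ha₁.ne, sv _ ha₂.ne']

theorem coeff_reg_eq_zero (hq : ‖q‖ < 1) (hq0 : q ≠ 0) (hw : ∀ j, 0 < w j) (hd : ∀ i, 0 < d i)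
    (hcount : ∀ m, 2 ≤ m → (Finset.univ.filter (fun j => m ∣ w j)).card ≤
      (Finset.univ.filter (fun i => m ∣ d i)).card)
    (hsq : ∑ i, d i ^ 2 = ∑ j, w j ^ 2) (k : ℕ) (hk : Fintype.card α = Fintype.card β + (k + 1)) :
    ((Function.swap dslope 0)^[k] (reg q w d k)) 0 = 0 := by
  have hnq : 0 < ‖q‖ := norm_pos_iff.mpr hq0
  have hlog : Real.log ‖q‖ < 0 := Real.log_neg hnq hq
  have hpi := Real.pi_pos
  have hG : rectInt (G q w d) (Real.log ‖q‖ / 2) (-Real.log ‖q‖ / 2) (-Real.pi) Real.pi = 0 :=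
    rectInt_periodic (L := log q) (G_add_two_pi hsq) (G_add hq (exp_log hq0) hsq)
      (by rw [log_re]; ring)
  rw [rectInt_G hq hw hd hcount k hk (by linarith) (by linarith) (by linarith) hpi
    (fun z hz hl => lat_rect hq hq0 hl hz)] at hG
  rcases mul_eq_zero.mp hG with h | h
  · exact h
  · exact absurd h (rectInt_inv_ne_zero (by linarith) (by linarith) (by linarith) hpi)

end MP_a24efc.Elliptic
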