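import Mathlib

/-!
The numerical part: for positive integers `w_j`, `d_i` such that for every `m ≥ 2` at least as many
`d_i` as `w_j` are divisible by `m`, with more `w_j` than `d_i` and `∑ d_i² = ∑ w_j²`, one has
`∑ d_i < ∑ w_j`.
-/

namespace MP_a24efc.Fano

open Finset

theorem eq_sum_totient {k B : ℕ} (hk : 0 < k) (hkB : k ≤ B) :
    (k : ℤ) = ∑ m ∈ Icc 1 B, if m ∣ k then (Nat.totient m : ℤ) else 0 := by
  rw [← Finset.sum_filter]
  have : (Icc 1 B).filter (fun m => m ∣ k) = k.divisors := by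
    ext m
    simp only [mem_filter, mem_Icc, Nat.mem_divisors]
    constructor
    · rintro ⟨_, h⟩; exact ⟨h, hk.ne'⟩
    · rintro ⟨h, _⟩
      exact ⟨⟨Nat.pos_of_dvd_of_pos h hk, (Nat.le_of_dvd hk h).trans hkB⟩, h⟩
  rw [this]
  exact_mod_cast (Nat.sum_totient k).symm

theorem sq_eq_sum_totient {k B : ℕ} (hk : 0 < k) (hkB : k ≤ B) :
    (k : ℤ) ^ 2 = ∑ m ∈ Icc 1 B, ∑ m' ∈ Icc 1 B,
      if Nat.lcm m m' ∣ k then (Nat.totient m : ℤ) * Nat.totient m' else 0 := by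
  rw [pow_two]
  nth_rw 1 [eq_sum_totient hk hkB]
  nth_rw 1 [eq_sum_totient hk hkB]
  rw [Finset.sum_mul_sum]
  refine Finset.sum_congr rfl fun m _ => Finset.sum_congr rfl fun m' _ => ?_
  by_cases h1 : m ∣ k <;> by_cases h2 : m' ∣ k <;> simp [h1, h2, Nat.lcm_dvd_iff]

theorem key1 {γ : Type*} [Fintype γ] (B : ℕ) (v : γ → ℕ) (hv : ∀ i, 0 < v i)
    (hvB : ∀ i, v i ≤ B) : ∑ i, (v i : ℤ) =
      ∑ m ∈ Icc 1 B, (Nat.totient m : ℤ) * ((univ.filter (fun i => m ∣ v i)).card : ℤ) := by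
  rw [Finset.sum_congr rfl (fun i _ => eq_sum_totient (hv i) (hvB i)), Finset.sum_comm]
  refine Finset.sum_congr rfl fun m _ => ?_
  rw [← Finset.sum_filter, Finset.sum_const, nsmul_eq_mul, mul_comm]

theorem key2 {γ : Type*} [Fintype γ] (B : ℕ) (v : γ → ℕ) (hv : ∀ i, 0 < v i)
    (hvB : ∀ i, v i ≤ B) : ∑ i, (v i : ℤ) ^ 2 =
      ∑ m ∈ Icc 1 B, ∑ m' ∈ Icc 1 B, ((Nat.totient m : ℤ) * Nat.totient m') *
        ((univ.filter (fun i => Nat.lcm m m' ∣ v i)).card : ℤ) := by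
  rw [Finset.sum_congr rfl (fun i _ => sq_eq_sum_totient (hv i) (hvB i)), Finset.sum_comm]
  refine Finset.sum_congr rfl fun m _ => ?_
  rw [Finset.sum_comm]
  refine Finset.sum_congr rfl fun m' _ => ?_
  rw [← Finset.sum_filter, Finset.sum_const, nsmul_eq_mul, mul_comm]

variable {α β : Type*} [Fintype α] [Fintype β]

theorem sum_lt_sum (w : α → ℕ) (d : β → ℕ) (hw : ∀ j, 0 < w j) (hd : ∀ i, 0 < d i)
    (hcount : ∀ m, 2 ≤ m → (univ.filter (fun j => m ∣ w j)).card ≤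
      (univ.filter (fun i => m ∣ d i)).card)
    (hN : Fintype.card β < Fintype.card α) (hsq : ∑ i, d i ^ 2 = ∑ j, w j ^ 2) :
    ∑ i, d i < ∑ j, w j := by
  classical
  set B := ∑ i, d i + ∑ j, w j + 1 with hB
  have hdB : ∀ i, d i ≤ B := fun i => by
    have := Finset.single_le_sum (f := d) (fun _ _ => Nat.zero_le _) (mem_univ i)
    omega
  have hwB : ∀ j, w j ≤ B := fun j => by
    have := Finset.single_le_sum (f := w) (fun _ _ => Nat.zero_le _) (mem_univ j)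
    omega
  let c : ℕ → ℤ := fun m => ((univ.filter (fun i => m ∣ d i)).card : ℤ) -
    ((univ.filter (fun j => m ∣ w j)).card : ℤ)
  have hc : ∀ m, 2 ≤ m → 0 ≤ c m := fun m hm => by
    have := hcount m hm
    simp only [c]; omega
  have hc1 : c 1 < 0 := by
    simp only [c, one_dvd, filter_true, card_univ]
    omega
  -- first moments
  have h1 : ∑ i, (d i : ℤ) - ∑ j, (w j : ℤ) = ∑ m ∈ Icc 1 B, (Nat.totient m : ℤ) * c m := by
    rw [key1 B d hd hdB, key1 B w hw hwB, ← Finset.sum_sub_distrib]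
    refine Finset.sum_congr rfl fun m _ => ?_
    simp only [c]; ring
  have h2 : ∑ i, (d i : ℤ) ^ 2 - ∑ j, (w j : ℤ) ^ 2 = ∑ m ∈ Icc 1 B, ∑ m' ∈ Icc 1 B,
      ((Nat.totient m : ℤ) * Nat.totient m') * c (Nat.lcm m m') := by
    rw [key2 B d hd hdB, key2 B w hw hwB, ← Finset.sum_sub_distrib]
    refine Finset.sum_congr rfl fun m _ => ?_
    rw [← Finset.sum_sub_distrib]
    refine Finset.sum_congr rfl fun m' _ => ?_
    simp only [c]; ring
  have h20 : ∑ i, (d i : ℤ) ^ 2 - ∑ j, (w j : ℤ) ^ 2 = 0 := by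
    have : (∑ i, (d i : ℤ) ^ 2) = ∑ j, (w j : ℤ) ^ 2 := by exact_mod_cast hsq
    omega
  -- split off `m = 1`
  have hIcc : Icc 1 B = insert 1 (Icc 2 B) := by
    ext m; simp only [mem_Icc, mem_insert]; omega
  have hnot : (1 : ℕ) ∉ Icc 2 B := by simp
  set S := ∑ m ∈ Icc 2 B, (Nat.totient m : ℤ) * c m with hS
  have e1 : ∑ m ∈ Icc 1 B, (Nat.totient m : ℤ) * c m = c 1 + S := by
    rw [hIcc, Finset.sum_insert hnot, Nat.totient_one, Nat.cast_one, one_mul]
  have e2 : c 1 + 2 * S ≤ ∑ m ∈ Icc 1 B, ∑ m' ∈ Icc 1 B,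
      ((Nat.totient m : ℤ) * Nat.totient m') * c (Nat.lcm m m') := by
    nth_rw 1 [hIcc]
    rw [Finset.sum_insert hnot]
    have t1 : ∑ m' ∈ Icc 1 B, ((Nat.totient 1 : ℤ) * Nat.totient m') * c (Nat.lcm 1 m') =
        c 1 + S := by
      rw [← e1]
      refine Finset.sum_congr rfl fun m _ => ?_
      simp
    have t2 : S ≤ ∑ m ∈ Icc 2 B, ∑ m' ∈ Icc 1 B,
        ((Nat.totient m : ℤ) * Nat.totient m') * c (Nat.lcm m m') := by
      rw [hS]
      refine Finset.sum_le_sum fun m hm => ?_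
      have hm2 : 2 ≤ m := (mem_Icc.mp hm).1
      have hmB : m ≤ B := (mem_Icc.mp hm).2
      have h1mem : (1 : ℕ) ∈ Icc 1 B := by simp; omega
      have := Finset.single_le_sum (s := Icc 1 B)
        (f := fun m' => ((Nat.totient m : ℤ) * Nat.totient m') * c (Nat.lcm m m'))
        (fun m' hm' => by
          refine mul_nonneg (by positivity) (hc _ ?_)
          have : m ≤ Nat.lcm m m' := Nat.le_of_dvd (Nat.lcm_pos (by omega) (by
            have := (mem_Icc.mp hm').1; omega)) (Nat.dvd_lcm_left _ _)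
          omega) h1mem
      simpa using this
    rw [t1]; linarith
  have hfin : ∑ i, (d i : ℤ) - ∑ j, (w j : ℤ) < 0 := by
    rw [h1, e1]
    rw [← h2, h20] at e2
    linarith
  have : (∑ i, (d i : ℤ)) < ∑ j, (w j : ℤ) := by linarith
  exact_mod_cast this

end MP_a24efc.Fano
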