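import Pool.Agent.Lib_MP_a24efc.Zero
import Pool.Agent.Lib_MP_a24efc.Count
import Pool.Agent.Lib_MP_a24efc.Fano

/-!
The characteristic power series of the Witten genus and its relation with the elliptic function `G`.
-/

namespace MP_a24efc

open Complex Filter Topology MP_a24efc.Theta MP_a24efc.Elliptic

/-- The contribution of a complex line bundle with first Chern class `y` to the integrand of the
Witten genus: `(y/2)/sinh(y/2) · ∏_{k ≥ 1} (1 - q^k)² / ((1 - q^k e^y)(1 - q^k e^{-y}))`, with the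
value `1` at `y = 0`. The first factor is the one of the `Â`-class; the factor with index `k` is
the Chern character of `Sym_{q^k}(L ⊕ L⁻¹ - 2)`. -/
noncomputable def wittenFactor (q y : ℂ) : ℂ :=
  if y = 0 then 1 else
    (y / 2) / sinh (y / 2) * ((∏' k : ℕ, (1 - q ^ (k + 1))) ^ 2 /
      ((∏' k : ℕ, (1 - q ^ (k + 1) * exp y)) * ∏' k : ℕ, (1 - q ^ (k + 1) * exp (-y))))

theorem wittenFactor_eq {q y : ℂ} (hy : y ≠ 0) :
    wittenFactor q y = (-(A q 1) ^ 2) * y * exp (y / 2) / P q y := by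
  have h1 : (∏' k : ℕ, (1 - q ^ (k + 1))) = A q 1 := by simp [A]
  unfold wittenFactor
  rw [if_neg hy, h1]
  show (y / 2) / sinh (y / 2) * (A q 1 ^ 2 / (A q (exp y) * A q (exp (-y)))) = _
  unfold P
  have h2 : (y / 2) / sinh (y / 2) = (-(y * exp (y / 2))) / (1 - exp y) := by
    have h3 : exp y = exp (y / 2) * exp (y / 2) := by rw [← exp_add]; ring_nf
    have h4 : exp (-(y / 2)) = (exp (y / 2))⁻¹ := exp_neg _
    have h5 : exp (y / 2) ≠ 0 := exp_ne_zero _
    rw [sinh, h4, h3]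
    have h7 : exp (y / 2) - (exp (y / 2))⁻¹ = -((1 - exp (y / 2) * exp (y / 2)) / exp (y / 2)) := by
      field_simp
      ring
    rw [h7]
    by_cases h6 : 1 - exp (y / 2) * exp (y / 2) = 0
    · rw [h6]; simp
    · field_simp
  rw [h2, div_mul_div_comm]
  congr 1
  ring

theorem tendsto_wittenFactor {q : ℂ} (hq : ‖q‖ < 1) :
    Tendsto (wittenFactor q) (𝓝[≠] 0) (𝓝 1) := by
  have hA := A_one_ne_zero hq
  have h1 := hasDerivAt_iff_tendsto_slope.mp (hasDerivAt_P_zero hq)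
  have h2 : Tendsto (fun y : ℂ => exp (y / 2)) (𝓝[≠] 0) (𝓝 1) := by
    have : ContinuousAt (fun y : ℂ => exp (y / 2)) 0 := by fun_prop
    have h3 : Tendsto (fun y : ℂ => exp (y / 2)) (𝓝 0) (𝓝 (exp (0 / 2))) := this
    simp only [zero_div, exp_zero] at h3
    exact h3.mono_left nhdsWithin_le_nhds
  have h4 : Tendsto (fun y : ℂ => (-(A q 1) ^ 2) * exp (y / 2) / slope (P q) 0 y) (𝓝[≠] 0)
      (𝓝 ((-(A q 1) ^ 2) * 1 / (-(A q 1 * A q 1)))) := by
    refine Tendsto.div (tendsto_const_nhds.mul h2) h1 ?_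
    exact neg_ne_zero.mpr (mul_ne_zero hA hA)
  have h5 : (-(A q 1) ^ 2) * 1 / (-(A q 1 * A q 1)) = 1 := by
    field_simp
  rw [h5] at h4
  refine h4.congr' ?_
  filter_upwards [self_mem_nhdsWithin] with y hy
  have hy0 : y ≠ 0 := hy
  rw [wittenFactor_eq hy0, slope_def_field, P_zero, sub_zero, sub_zero, div_div_eq_mul_div]
  congr 1
  ring

variable {α β : Type*} [Fintype α] [Fintype β]

/-- the integrand of the Witten genus of a weighted complete intersection, as a function of the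
hyperplane class -/
noncomputable def wittenClass (q : ℂ) (w : α → ℕ) (d : β → ℕ) (x : ℂ) : ℂ :=
  (∏ j, wittenFactor q (w j * x)) / ∏ i, wittenFactor q (d i * x)

theorem prod_wittenFactor {γ : Type*} [Fintype γ] (q : ℂ) (v : γ → ℕ) (hv : ∀ i, 0 < v i) {x : ℂ}
    (hx : x ≠ 0) : ∏ i, wittenFactor q (v i * x) =
      (-(A q 1) ^ 2) ^ Fintype.card γ * (∏ i, (v i : ℂ)) * x ^ Fintype.card γ *
        exp ((∑ i, (v i : ℂ)) / 2 * x) / ∏ i, P q (v i * x) := by
  have h1 : ∀ i, wittenFactor q (v i * x) =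
      (-(A q 1) ^ 2) * (v i * x) * exp (v i * x / 2) / P q (v i * x) := fun i => by
    refine wittenFactor_eq (mul_ne_zero ?_ hx)
    exact_mod_cast (hv i).ne'
  simp only [h1]
  rw [Finset.prod_div_distrib, Finset.prod_mul_distrib, Finset.prod_mul_distrib,
    Finset.prod_mul_distrib, Finset.prod_const, Finset.prod_const, Finset.card_univ, ← exp_sum]
  congr 1
  have h2 : ∑ i, (v i : ℂ) * x / 2 = (∑ i, (v i : ℂ)) / 2 * x := by
    rw [Finset.sum_div, Finset.sum_mul]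
    exact Finset.sum_congr rfl fun i _ => by ring
  rw [h2]
  ring

theorem wittenClass_eq {q : ℂ} (hq : ‖q‖ < 1) (w : α → ℕ) (d : β → ℕ) (hw : ∀ j, 0 < w j)
    (hd : ∀ i, 0 < d i) (k : ℕ) (hk : Fintype.card α = Fintype.card β + (k + 1)) {x : ℂ}
    (hx : x ≠ 0) : wittenClass q w d x =
      ((-(A q 1) ^ 2) ^ (k + 1) * (∏ j, (w j : ℂ)) / ∏ i, (d i : ℂ)) *
        (x ^ (k + 1) * G q w d x) := by
  unfold wittenClass G
  rw [prod_wittenFactor q w hw hx, prod_wittenFactor q d hd hx, div_div_div_eq, hk]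
  have hA : (-(A q 1) ^ 2) ≠ 0 := neg_ne_zero.mpr (pow_ne_zero _ (A_one_ne_zero hq))
  have hd0 : (∏ i, (d i : ℂ)) ≠ 0 := Finset.prod_ne_zero_iff.mpr fun i _ => by
    exact_mod_cast (hd i).ne'
  have hE : exp ((∑ i, (d i : ℂ)) / 2 * x) ≠ 0 := exp_ne_zero _
  have h1 : exp (((∑ j, (w j : ℂ)) - ∑ i, (d i : ℂ)) / 2 * x) =
      exp ((∑ j, (w j : ℂ)) / 2 * x) / exp ((∑ i, (d i : ℂ)) / 2 * x) := by
    rw [← exp_sub]; congr 1; ring
  rw [h1, pow_add (-(A q 1) ^ 2), pow_add x (Fintype.card β)]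
  have hAb : (-(A q 1) ^ 2) ^ Fintype.card β ≠ 0 := pow_ne_zero _ hA
  have hxb : x ^ Fintype.card β ≠ 0 := pow_ne_zero _ hx
  generalize (-(A q 1) ^ 2) ^ Fintype.card β = a at *
  generalize x ^ Fintype.card β = b at *
  generalize (∏ i, P q (d i * x)) = p1
  generalize (∏ i, P q (w i * x)) = p2
  generalize exp ((∑ i, (d i : ℂ)) / 2 * x) = e1 at *
  by_cases hp2 : p2 = 0
  · simp [hp2]
  · field_simp

theorem wittenClass_zero (q : ℂ) (w : α → ℕ) (d : β → ℕ) : wittenClass q w d 0 = 1 := by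
  simp [wittenClass, wittenFactor]

theorem tendsto_wittenClass {q : ℂ} (hq : ‖q‖ < 1) (w : α → ℕ) (d : β → ℕ) (hw : ∀ j, 0 < w j)
    (hd : ∀ i, 0 < d i) : Tendsto (wittenClass q w d) (𝓝[≠] 0) (𝓝 1) := by
  have key : ∀ m : ℕ, 0 < m → Tendsto (fun x : ℂ => wittenFactor q (m * x)) (𝓝[≠] 0) (𝓝 1) := by
    intro m hm
    refine (tendsto_wittenFactor hq).comp ?_
    have hm0 : (m : ℂ) ≠ 0 := by exact_mod_cast hm.ne'
    refine tendsto_nhdsWithin_iff.mpr ⟨?_, ?_⟩
    · have : ContinuousAt (fun x : ℂ => (m : ℂ) * x) 0 := by fun_prop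
      have h : Tendsto (fun x : ℂ => (m : ℂ) * x) (𝓝 0) (𝓝 (m * 0)) := this
      rw [mul_zero] at h
      exact h.mono_left nhdsWithin_le_nhds
    · filter_upwards [self_mem_nhdsWithin] with x hx
      exact mul_ne_zero hm0 hx
  have h1 : Tendsto (fun x : ℂ => ∏ j, wittenFactor q (w j * x)) (𝓝[≠] 0) (𝓝 (∏ _j : α, 1)) :=
    tendsto_finsetProd _ fun j _ => key (w j) (hw j)
  have h2 : Tendsto (fun x : ℂ => ∏ i, wittenFactor q (d i * x)) (𝓝[≠] 0) (𝓝 (∏ _i : β, 1)) :=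
    tendsto_finsetProd _ fun i _ => key (d i) (hd i)
  simp only [Finset.prod_const_one] at h1 h2
  have h3 := h1.div h2 one_ne_zero
  rw [div_one] at h3
  exact h3

/-- The Taylor coefficient of the integrand of the Witten genus in the degree of the complete
intersection vanishes. -/
theorem iteratedDeriv_wittenClass {q : ℂ} (hq : ‖q‖ < 1) (w : α → ℕ) (d : β → ℕ)
    (hw : ∀ j, 0 < w j) (hd : ∀ i, 0 < d i)
    (hcount : ∀ m, 2 ≤ m → (Finset.univ.filter (fun j => m ∣ w j)).card ≤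
      (Finset.univ.filter (fun i => m ∣ d i)).card)
    (hsq : ∑ i, d i ^ 2 = ∑ j, w j ^ 2) (hlt : ∑ i, d i < ∑ j, w j)
    (k : ℕ) (hk : Fintype.card α = Fintype.card β + (k + 1)) :
    iteratedDeriv k (wittenClass q w d) 0 = 0 := by
  have hH0 : AnalyticAt ℂ (reg q w d k) 0 :=
    reg_analyticAt hq hw hd hcount k hk (Or.inl rfl)
  have hHk : iteratedDeriv k (reg q w d k) 0 = 0 := by
    refine MP_a24efc.Rect.iteratedDeriv_eq_zero_of_iterate k hH0 ?_
    rcases eq_or_ne q 0 with rfl | hq0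
    · exact Zero.coeff_reg_zero hw hd hcount hsq hlt k hk
    · exact coeff_reg_eq_zero hq hq0 hw hd hcount hsq k hk
  set C : ℂ := (-(A q 1) ^ 2) ^ (k + 1) * (∏ j, (w j : ℂ)) / ∏ i, (d i : ℂ) with hC
  have h1 : wittenClass q w d =ᶠ[𝓝[≠] 0] fun x => C * reg q w d k x := by
    filter_upwards [reg_eventuallyEq hq w d k, self_mem_nhdsWithin] with x hx hx0
    rw [hx, wittenClass_eq hq w d hw hd k hk hx0]
  have h2 : Tendsto (fun x => C * reg q w d k x) (𝓝[≠] 0) (𝓝 (C * reg q w d k 0)) :=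
    (hH0.continuousAt.tendsto.mono_left nhdsWithin_le_nhds).const_mul C
  have h3 : C * reg q w d k 0 = 1 :=
    tendsto_nhds_unique h2 ((tendsto_wittenClass hq w d hw hd).congr' h1)
  have h4 : wittenClass q w d =ᶠ[𝓝 0] fun x => C * reg q w d k x := by
    refine eventuallyEq_nhds_of_eventuallyEq_nhdsNE h1 ?_
    rw [wittenClass_zero, h3]
  rw [h4.iteratedDeriv_eq, iteratedDeriv_const_mul_field, hHk, mul_zero]

end MP_a24efc
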