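import Mathlib

/-!
The theta function `P q x = (1 - e^x) ∏ (1 - q^k e^x)(1 - q^k e^{-x})` (`k ≥ 1`): it is entire,
quasi-periodic, and its zeros are simple and exactly the points `x` with `e^x ∈ q^ℤ`.
-/

namespace MP_a24efc.Theta

open Complex Filter Topology

/-- the Euler product `∏_{k ≥ 1} (1 - q^k z)` -/
noncomputable def A (q z : ℂ) : ℂ := ∏' k : ℕ, (1 - q ^ (k + 1) * z)

/-- the theta function -/
noncomputable def P (q x : ℂ) : ℂ := (1 - exp x) * (A q (exp x) * A q (exp (-x)))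

variable {q : ℂ}

theorem summable_norm (hq : ‖q‖ < 1) (z : ℂ) : Summable fun k : ℕ => ‖-(q ^ (k + 1) * z)‖ := by
  simp only [norm_neg, norm_mul, norm_pow]
  exact ((summable_nat_add_iff 1).mpr
    (summable_geometric_of_lt_one (norm_nonneg _) hq)).mul_right _

theorem multipliable (hq : ‖q‖ < 1) (z : ℂ) : Multipliable fun k : ℕ => (1 - q ^ (k + 1) * z) := by
  simp_rw [sub_eq_add_neg]
  exact multipliable_one_add_of_summable (summable_norm hq z)

theorem A_ne_zero (hq : ‖q‖ < 1) {z : ℂ} (h : ∀ k : ℕ, q ^ (k + 1) * z ≠ 1) : A q z ≠ 0 := by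
  unfold A
  simp_rw [sub_eq_add_neg]
  refine tprod_one_add_ne_zero_of_summable (fun k => ?_) (summable_norm hq z)
  rw [← sub_eq_add_neg, sub_ne_zero]
  exact fun h' => h k h'.symm

theorem A_one_ne_zero (hq : ‖q‖ < 1) : A q 1 ≠ 0 := by
  refine A_ne_zero hq fun k h => ?_
  rw [mul_one] at h
  have : ‖q‖ ^ (k + 1) = 1 := by rw [← norm_pow, h, norm_one]
  have h2 : ‖q‖ ^ (k + 1) < 1 := pow_lt_one₀ (norm_nonneg _) hq (by omega)
  linarith

theorem A_shift (hq : ‖q‖ < 1) (z : ℂ) : A q z = (1 - q * z) * A q (q * z) := by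
  have hm : Multipliable fun k : ℕ => (fun k : ℕ => (1 - q ^ (k + 1) * z)) (k + 1) := by
    refine (multipliable hq (q * z)).congr fun k => ?_
    simp only []
    rw [pow_succ q (k + 1), mul_assoc]
  have h := tprod_eq_zero_mul' (f := fun k : ℕ => (1 - q ^ (k + 1) * z)) hm
  have h2 : A q (q * z) = ∏' k : ℕ, (1 - q ^ (k + 1 + 1) * z) := by
    unfold A
    refine tprod_congr fun k => ?_
    rw [pow_succ q (k + 1), mul_assoc]
  rw [h2]
  unfold A
  rw [h, zero_add, pow_one]

theorem differentiable_A (hq : ‖q‖ < 1) : Differentiable ℂ (A q) := by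
  have hloc : HasProdLocallyUniformlyOn (fun (k : ℕ) z => 1 + -(q ^ (k + 1) * z))
      (fun z => ∏' k : ℕ, (1 + -(q ^ (k + 1) * z))) Set.univ := by
    apply hasProdLocallyUniformlyOn_of_forall_compact isOpen_univ
    intro K _ hcK
    obtain ⟨M, hM⟩ := hcK.isBounded.exists_norm_le
    have hs : Summable fun k : ℕ => ‖q‖ ^ (k + 1) * M :=
      ((summable_nat_add_iff 1).mpr
        (summable_geometric_of_lt_one (norm_nonneg _) hq)).mul_right _
    refine hs.hasProdUniformlyOn_nat_one_add hcK (.of_forall fun n x hx => ?_)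
      (fun _ => by fun_prop)
    rw [norm_neg, norm_mul, norm_pow]
    exact mul_le_mul_of_nonneg_left (hM x hx) (by positivity)
  have := hloc.differentiableOn (.of_forall fun _ => by
    simpa [Finset.prod_fn] using DifferentiableOn.finsetProd (fun _ _ => by fun_prop)) isOpen_univ
  rw [differentiableOn_univ] at this
  have h2 : A q = fun z => ∏' k : ℕ, (1 + -(q ^ (k + 1) * z)) := by
    funext z; simp only [A, sub_eq_add_neg]
  rw [h2]; exact this

theorem differentiable_P (hq : ‖q‖ < 1) : Differentiable ℂ (P q) := by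
  have h := differentiable_A hq
  unfold P
  have h1 : Differentiable ℂ (fun x : ℂ => A q (exp x)) := h.comp differentiable_exp
  have h2 : Differentiable ℂ (fun x : ℂ => A q (exp (-x))) :=
    h.comp (differentiable_exp.comp differentiable_neg)
  fun_prop

theorem P_add_two_pi (q x : ℂ) : P q (x + 2 * Real.pi * I) = P q x := by
  unfold P
  have h1 : exp (x + 2 * Real.pi * I) = exp x := exp_periodic x
  have h2 : exp (-(x + 2 * Real.pi * I)) = exp (-x) := by
    rw [exp_neg, exp_neg, h1]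
  rw [h1, h2]

theorem P_add {L : ℂ} (hq : ‖q‖ < 1) (hL : exp L = q) (x : ℂ) :
    P q (x + L) = -exp (-x) * P q x := by
  have hq0 : q ≠ 0 := hL ▸ exp_ne_zero L
  unfold P
  have h1 : exp (x + L) = q * exp x := by rw [exp_add, hL, mul_comm]
  have h2 : A q (exp (-(x + L))) = (1 - exp (-x)) * A q (exp (-x)) := by
    have h3 : exp (-(x + L)) = q⁻¹ * exp (-x) := by
      rw [neg_add, exp_add, exp_neg L, hL, mul_comm]
    rw [h3, A_shift hq, ← mul_assoc, mul_inv_cancel₀ hq0, one_mul]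
  rw [h1, h2, A_shift hq (exp x)]
  have h4 : exp (-x) * exp x = 1 := by rw [← exp_add]; simp
  linear_combination (-(1 - q * exp x) * A q (q * exp x) * A q (exp (-x))) * h4

/-- the lattice `Λ`, described multiplicatively -/
def Lat (q x : ℂ) : Prop := ∃ k : ℤ, exp x = q ^ k

theorem P_ne_zero (hq : ‖q‖ < 1) {x : ℂ} (hx : ¬ Lat q x) : P q x ≠ 0 := by
  unfold P
  refine mul_ne_zero ?_ (mul_ne_zero ?_ ?_)
  · intro h
    exact hx ⟨0, by rw [zpow_zero]; exact (sub_eq_zero.mp h).symm⟩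
  · refine A_ne_zero hq fun k h => hx ⟨-(k + 1 : ℕ), ?_⟩
    rw [zpow_neg, zpow_natCast]
    exact eq_inv_of_mul_eq_one_right h
  · refine A_ne_zero hq fun k h => hx ⟨(k + 1 : ℕ), ?_⟩
    rw [zpow_natCast]
    have h2 : exp (-x) = (exp x)⁻¹ := exp_neg x
    rw [h2] at h
    have h3 : exp x ≠ 0 := exp_ne_zero x
    field_simp at h
    exact h.symm

theorem P_zero (q : ℂ) : P q 0 = 0 := by simp [P]

theorem hasDerivAt_P_zero (hq : ‖q‖ < 1) : HasDerivAt (P q) (-(A q 1 * A q 1)) 0 := by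
  have hA := differentiable_A hq
  have h1 : Differentiable ℂ (fun x : ℂ => A q (exp x)) := hA.comp differentiable_exp
  have h2 : Differentiable ℂ (fun x : ℂ => A q (exp (-x))) :=
    hA.comp (differentiable_exp.comp differentiable_neg)
  have h3 : HasDerivAt (fun x : ℂ => 1 - exp x) (-1) 0 := by
    simpa using (hasDerivAt_exp 0).const_sub 1
  have h4 : Differentiable ℂ (fun x : ℂ => A q (exp x) * A q (exp (-x))) := h1.mul h2
  have h5 := h3.mul (h4 0).hasDerivAt
  simp only [exp_zero, neg_zero, sub_self, zero_mul, add_zero, neg_mul, one_mul] at h5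
  exact h5

theorem P_add_nat_mul {L : ℂ} (hq : ‖q‖ < 1) (hL : exp L = q) (m : ℕ) (y : ℂ) :
    P q (y + m * L) = (-1) ^ m * exp (-(m * y) - L * (m * (m - 1) / 2)) * P q y := by
  induction m with
  | zero => simp
  | succ m ih =>
    have h1 : y + ((m + 1 : ℕ) : ℂ) * L = (y + m * L) + L := by push_cast; ring
    rw [h1, P_add hq hL, ih]
    have h2 : exp (-(((m + 1 : ℕ) : ℂ) * y) - L * (((m + 1 : ℕ) : ℂ) * (((m + 1 : ℕ) : ℂ) - 1) / 2)) =
        exp (-(y + m * L)) * exp (-(m * y) - L * (m * (m - 1) / 2)) := by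
      rw [← exp_add]
      congr 1
      push_cast
      ring
    rw [h2]
    ring

theorem P_add_int_two_pi (q : ℂ) (l : ℤ) (y : ℂ) : P q (y + l * (2 * Real.pi * I)) = P q y := by
  have hp : Function.Periodic (P q) (2 * Real.pi * I) := fun x => P_add_two_pi q x
  exact hp.int_mul l y

theorem lat_zero_iff {x : ℂ} : Lat 0 x ↔ exp x = 1 := by
  constructor
  · rintro ⟨k, hk⟩
    by_cases h : k = 0
    · rw [hk, h, zpow_zero]
    · rw [zero_zpow k h] at hk
      exact absurd hk (exp_ne_zero x)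
  · intro h
    exact ⟨0, by rw [h, zpow_zero]⟩

/-- translation by a lattice vector multiplies `P` by a nowhere vanishing analytic function -/
theorem exists_unit (hq : ‖q‖ < 1) {y : ℂ} (hy : Lat q y) :
    ∃ u : ℂ → ℂ, Differentiable ℂ u ∧ (∀ x, u x ≠ 0) ∧ ∀ x, P q (x + y) = u x * P q x := by
  rcases eq_or_ne q 0 with rfl | hq0
  · obtain ⟨l, hl⟩ := exp_eq_one_iff.mp (lat_zero_iff.mp hy)
    exact ⟨fun _ => 1, by fun_prop, fun _ => one_ne_zero, fun x => by
      rw [hl, P_add_int_two_pi, one_mul]⟩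
  obtain ⟨k, hk⟩ := hy
  set L := log q with hLdef
  have hL : exp L = q := exp_log hq0
  have hkL : exp y = exp (k * L) := by rw [hk, exp_int_mul, hL]
  obtain ⟨l, hl⟩ := exp_eq_exp_iff_exists_int.mp hkL
  obtain ⟨m, hm | hm⟩ := k.eq_nat_or_neg
  · refine ⟨fun x => (-1) ^ m * exp (-(m * x) - L * (m * (m - 1) / 2)), by fun_prop, fun x => ?_,
      fun x => ?_⟩
    · exact mul_ne_zero (pow_ne_zero _ (by norm_num)) (exp_ne_zero _)
    · have : x + y = (x + m * L) + l * (2 * Real.pi * I) := by rw [hl, hm]; push_cast; ring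
      rw [this, P_add_int_two_pi, P_add_nat_mul hq hL]
  · refine ⟨fun x => ((-1) ^ m * exp (-(m * (x - m * L)) - L * (m * (m - 1) / 2)))⁻¹, ?_,
      fun x => ?_, fun x => ?_⟩
    · have h1 : (fun x : ℂ => ((-1 : ℂ) ^ m * exp (-(m * (x - m * L)) - L * (m * (m - 1) / 2)))⁻¹) =
          fun x : ℂ => ((-1 : ℂ) ^ m)⁻¹ * exp (-(-(m * (x - m * L)) - L * (m * (m - 1) / 2))) := by
        funext x
        rw [mul_inv, exp_neg]
      rw [h1]; fun_prop
    · exact inv_ne_zero (mul_ne_zero (pow_ne_zero _ (by norm_num)) (exp_ne_zero _))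
    · have h1 : x + y = (x - m * L) + l * (2 * Real.pi * I) := by rw [hl, hm]; push_cast; ring
      rw [h1, P_add_int_two_pi]
      have h2 := P_add_nat_mul hq hL m (x - m * L)
      rw [sub_add_cancel] at h2
      rw [h2, ← mul_assoc, inv_mul_cancel₀, one_mul]
      exact mul_ne_zero (pow_ne_zero _ (by norm_num)) (exp_ne_zero _)

theorem analyticAt_P (hq : ‖q‖ < 1) (x : ℂ) : AnalyticAt ℂ (P q) x :=
  (differentiable_P hq).analyticAt x

theorem P_eq_zero (hq : ‖q‖ < 1) {x : ℂ} (hx : Lat q x) : P q x = 0 := by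
  obtain ⟨u, _, _, hu⟩ := exists_unit hq hx
  have := hu 0
  rwa [zero_add, P_zero, mul_zero] at this

theorem deriv_P_ne_zero (hq : ‖q‖ < 1) {x : ℂ} (hx : Lat q x) :
    deriv (P q) x ≠ 0 := by
  obtain ⟨u, hu1, hu2, hu⟩ := exists_unit hq hx
  have h1 : HasDerivAt (fun z => P q (z + x)) (deriv (P q) x) 0 := by
    have := ((differentiable_P hq) (0 + x)).hasDerivAt.comp_add_const 0 x
    simpa using this
  have h2 : HasDerivAt (fun z => P q (z + x)) (u 0 * (-(A q 1 * A q 1))) 0 := by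
    have h3 : (fun z => P q (z + x)) = fun z => u z * P q z := funext hu
    rw [h3]
    have h4 : HasDerivAt (fun z => u z * P q z)
        (deriv u 0 * P q 0 + u 0 * (-(A q 1 * A q 1))) 0 :=
      (hu1 0).hasDerivAt.mul (hasDerivAt_P_zero hq)
    rwa [P_zero, mul_zero, zero_add] at h4
  rw [h1.unique h2]
  exact mul_ne_zero (hu2 0) (neg_ne_zero.mpr (mul_ne_zero (A_one_ne_zero hq) (A_one_ne_zero hq)))

theorem order_P_lat (hq : ‖q‖ < 1) {x : ℂ} (hx : Lat q x) :
    meromorphicOrderAt (P q) x = 1 := by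
  rw [(analyticAt_P hq x).meromorphicOrderAt_eq]
  have := (analyticAt_P hq x).analyticOrderAt_sub_eq_one_of_deriv_ne_zero
    (deriv_P_ne_zero hq hx)
  simp only [P_eq_zero hq hx, sub_zero] at this
  rw [this]
  rfl

theorem order_P_not_lat (hq : ‖q‖ < 1) {x : ℂ} (hx : ¬ Lat q x) :
    meromorphicOrderAt (P q) x = 0 := by
  rw [(analyticAt_P hq x).meromorphicOrderAt_eq]
  rw [(analyticAt_P hq x).analyticOrderAt_eq_zero.mpr (P_ne_zero hq hx)]
  rfl

open Classical in
/-- the order of `x ↦ P q (m x)` at `x` -/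
theorem order_P_mul (hq : ‖q‖ < 1) (m : ℕ) (hm : 0 < m) (x : ℂ) :
    meromorphicOrderAt (fun z => P q (m * z)) x = if Lat q (m * x) then 1 else 0 := by
  have hm0 : (m : ℂ) ≠ 0 := by exact_mod_cast hm.ne'
  have hg : AnalyticAt ℂ (fun z : ℂ => (m : ℂ) * z) x := by fun_prop
  have hg' : deriv (fun z : ℂ => (m : ℂ) * z) x ≠ 0 := by
    rw [deriv_const_mul_field]
    simpa using hm0
  have h := meromorphicOrderAt_comp_of_deriv_ne_zero (f := P q) hg hg'
  have h2 : (P q) ∘ (fun z : ℂ => (m : ℂ) * z) = fun z => P q (m * z) := rfl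
  rw [h2] at h
  rw [h]
  split_ifs with hlat
  · exact order_P_lat hq hlat
  · exact order_P_not_lat hq hlat

theorem A_zero (z : ℂ) : A 0 z = 1 := by simp [A]

theorem P_zero_left (x : ℂ) : P 0 x = 1 - exp x := by simp [P, A_zero]

end MP_a24efc.Theta
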