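import Pool.Agent.Lib_MP_a24efc.Elliptic

/-!
The case `q = 0` (the `Â`-genus): here `G` has only the period `2πi`, and the contour integral over
the rectangle `[-T,T] × [-π,π]` tends to `0` because `∑ d_i < ∑ w_j`.
-/

namespace MP_a24efc.Zero

open Complex Filter Topology MeasureTheory MP_a24efc.Theta MP_a24efc.Rect MP_a24efc.Elliptic

variable {α β : Type*} [Fintype α] [Fintype β] {w : α → ℕ} {d : β → ℕ}

theorem prod_neg {γ : Type*} [Fintype γ] (v : γ → ℕ) (x : ℂ) :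
    ∏ i, P 0 (v i * (-x)) = (-1) ^ Fintype.card γ * exp (-(∑ i, (v i : ℂ)) * x) *
      ∏ i, P 0 (v i * x) := by
  have h1 : ∀ i, P 0 (v i * (-x)) = (-1) * exp (-(v i : ℂ) * x) * P 0 (v i * x) := fun i => by
    rw [P_zero_left, P_zero_left]
    have h2 : exp (-(v i : ℂ) * x) * exp (v i * x) = 1 := by
      rw [← exp_add]; simp
    have h3 : exp ((v i : ℂ) * (-x)) = exp (-(v i : ℂ) * x) := by congr 1; ring
    rw [h3]
    linear_combination -h2
  simp only [h1]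
  rw [Finset.prod_mul_distrib, Finset.prod_mul_distrib, Finset.prod_const, Finset.card_univ,
    ← exp_sum]
  congr 3
  rw [← Finset.sum_mul, Finset.sum_neg_distrib]

theorem norm_G_neg (x : ℂ) : ‖G 0 w d (-x)‖ = ‖G 0 w d x‖ := by
  unfold G
  rw [prod_neg, prod_neg]
  set W := ∑ j, (w j : ℂ)
  set V := ∑ i, (d i : ℂ)
  have h1 : exp ((W - V) / 2 * (-x)) * (exp (-V * x) / exp (-W * x)) = exp ((W - V) / 2 * x) := by
    rw [← exp_sub, ← exp_add]; congr 1; ring
  have h2 : exp ((W - V) / 2 * (-x)) * (((-1) ^ Fintype.card β * exp (-V * x) *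
      ∏ i, P 0 (d i * x)) / ((-1) ^ Fintype.card α * exp (-W * x) * ∏ j, P 0 (w j * x))) =
      ((-1) ^ Fintype.card β / (-1) ^ Fintype.card α) * (exp ((W - V) / 2 * x) *
        ((∏ i, P 0 (d i * x)) / ∏ j, P 0 (w j * x))) := by
    rw [← h1, mul_div_mul_comm, mul_div_mul_comm]
    ring
  rw [h2, norm_mul]
  simp

theorem norm_P_le {m : ℕ} {x : ℂ} (hx : x.re ≤ 0) : ‖P 0 (m * x)‖ ≤ 2 := by
  rw [P_zero_left]
  have h1 : ‖exp (m * x)‖ ≤ 1 := by
    rw [Complex.norm_exp]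
    refine Real.exp_le_one_iff.mpr ?_
    simp only [mul_re, natCast_re, natCast_im, zero_mul, sub_zero]
    exact mul_nonpos_of_nonneg_of_nonpos (Nat.cast_nonneg m) hx
  calc ‖1 - exp (m * x)‖ ≤ ‖(1 : ℂ)‖ + ‖exp (m * x)‖ := norm_sub_le _ _
    _ ≤ 1 + 1 := by rw [norm_one]; linarith
    _ = 2 := by norm_num

theorem le_norm_P {m : ℕ} (hm : 0 < m) {x : ℂ} (hx : x.re ≤ -1) : 1 / 2 ≤ ‖P 0 (m * x)‖ := by
  rw [P_zero_left]
  have h1 : ‖exp (m * x)‖ ≤ 1 / 2 := by
    rw [Complex.norm_exp]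
    simp only [mul_re, natCast_re, natCast_im, zero_mul, sub_zero]
    have h2 : (m : ℝ) * x.re ≤ -1 := by
      have : (1 : ℝ) ≤ m := by exact_mod_cast hm
      nlinarith
    calc Real.exp ((m : ℝ) * x.re) ≤ Real.exp (-1) := Real.exp_le_exp.mpr h2
      _ ≤ 1 / 2 := by
        rw [Real.exp_neg]
        rw [inv_le_comm₀ (Real.exp_pos 1) (by norm_num)]
        have := Real.add_one_le_exp 1
        norm_num at this ⊢
        exact this
  have h3 : ‖(1 : ℂ)‖ - ‖exp (m * x)‖ ≤ ‖1 - exp (m * x)‖ := norm_sub_norm_le _ _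
  rw [norm_one] at h3
  linarith

theorem norm_G_le (hw : ∀ j, 0 < w j) {x : ℂ} (hx : x.re ≤ -1) :
    ‖G 0 w d x‖ ≤ Real.exp (((∑ j, (w j : ℝ)) - ∑ i, (d i : ℝ)) / 2 * x.re) *
      (2 ^ Fintype.card β * 2 ^ Fintype.card α) := by
  unfold G
  rw [norm_mul, norm_div, norm_prod, norm_prod]
  have h1 : ‖exp (((∑ j, (w j : ℂ)) - ∑ i, (d i : ℂ)) / 2 * x)‖ =
      Real.exp (((∑ j, (w j : ℝ)) - ∑ i, (d i : ℝ)) / 2 * x.re) := by
    rw [Complex.norm_exp]
    congr 1
    have : ((∑ j, (w j : ℂ)) - ∑ i, (d i : ℂ)) / 2 =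
        ((((∑ j, (w j : ℝ)) - ∑ i, (d i : ℝ)) / 2 : ℝ) : ℂ) := by push_cast; ring
    rw [this, re_ofReal_mul]
  rw [h1]
  refine mul_le_mul_of_nonneg_left ?_ (Real.exp_pos _).le
  have h2 : ∏ i, ‖P 0 (d i * x)‖ ≤ 2 ^ Fintype.card β := by
    calc ∏ i, ‖P 0 (d i * x)‖ ≤ ∏ _i : β, (2 : ℝ) :=
          Finset.prod_le_prod (fun _ _ => norm_nonneg _) fun i _ => norm_P_le (by linarith)
      _ = 2 ^ Fintype.card β := by simp
  have h3 : (1 / 2 : ℝ) ^ Fintype.card α ≤ ∏ j, ‖P 0 (w j * x)‖ := by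
    calc (1 / 2 : ℝ) ^ Fintype.card α = ∏ _j : α, (1 / 2 : ℝ) := by simp
      _ ≤ ∏ j, ‖P 0 (w j * x)‖ :=
          Finset.prod_le_prod (fun _ _ => by norm_num) fun j _ => le_norm_P (hw j) hx
  have h4 : (0 : ℝ) < (1 / 2) ^ Fintype.card α := by positivity
  calc (∏ i, ‖P 0 (d i * x)‖) / ∏ j, ‖P 0 (w j * x)‖
      ≤ 2 ^ Fintype.card β / (1 / 2) ^ Fintype.card α := by gcongr
    _ = 2 ^ Fintype.card β * 2 ^ Fintype.card α := by
        rw [one_div, inv_pow, div_inv_eq_mul]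

theorem lat_rect_zero {T : ℝ} {x : ℂ} (hx : Lat 0 x)
    (hmem : x ∈ rect (-T) T (-Real.pi) Real.pi) : x = 0 := by
  obtain ⟨l, hl⟩ := exp_eq_one_iff.mp (lat_zero_iff.mp hx)
  have hmem' := (mem_reProdIm.mp hmem).2
  rw [Set.uIcc_of_le (by linarith [Real.pi_pos])] at hmem'
  obtain ⟨h3, h4⟩ := hmem'
  have him : x.im = l * (2 * Real.pi) := by
    have := congrArg Complex.im hl
    simpa using this
  have hpi := Real.pi_pos
  have hl0 : l = 0 := by
    rw [him] at h3 h4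
    have h5 : (l : ℝ) * 2 ≤ 1 := by
      by_contra hcon
      push Not at hcon
      nlinarith
    have h6 : -1 ≤ (l : ℝ) * 2 := by
      by_contra hcon
      push Not at hcon
      nlinarith
    have h9 : l < 1 := by exact_mod_cast (by linarith : (l : ℝ) < 1)
    have h10 : -1 < l := by exact_mod_cast (by linarith : (-1 : ℝ) < l)
    omega
  rw [hl, hl0]
  simp

theorem norm_rectInt_le (hsq : ∑ i, d i ^ 2 = ∑ j, w j ^ 2) (hw : ∀ j, 0 < w j) {T : ℝ}
    (hT : 1 ≤ T) : ‖rectInt (G 0 w d) (-T) T (-Real.pi) Real.pi‖ ≤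
      2 * (Real.exp (-(((∑ j, (w j : ℝ)) - ∑ i, (d i : ℝ)) / 2 * T)) *
      (2 ^ Fintype.card β * 2 ^ Fintype.card α) * (2 * Real.pi)) := by
  set M := Real.exp (-(((∑ j, (w j : ℝ)) - ∑ i, (d i : ℝ)) / 2 * T)) *
      (2 ^ Fintype.card β * 2 ^ Fintype.card α) with hM
  have e1 : ∀ x : ℝ, G 0 w d (x + (Real.pi : ℝ) * I) = G 0 w d (x + ((-Real.pi : ℝ) : ℂ) * I) :=
    fun x => by
    rw [← G_add_two_pi hsq (x + ((-Real.pi : ℝ) : ℂ) * I)]
    congr 1
    push_cast; ring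
  have bound1 : ∀ y : ℝ, ‖G 0 w d (((-T : ℝ) : ℂ) + y * I)‖ ≤ M := fun y => by
    have h := norm_G_le (w := w) (d := d) hw (x := (((-T : ℝ) : ℂ) + y * I))
      (by simp; linarith)
    have h2 : (((-T : ℝ) : ℂ) + y * I).re = -T := by simp
    rw [h2, mul_neg] at h
    exact h
  have bound2 : ∀ y : ℝ, ‖G 0 w d ((T : ℂ) + y * I)‖ ≤ M := fun y => by
    rw [← norm_G_neg]
    have h3 : -((T : ℂ) + y * I) = (((-T : ℝ) : ℂ) + ((-y : ℝ) : ℂ) * I) := by push_cast; ring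
    rw [h3]
    exact bound1 (-y)
  have i1 : ‖∫ y in (-Real.pi)..Real.pi, G 0 w d (((-T : ℝ) : ℂ) + y * I)‖ ≤ M * (2 * Real.pi) := by
    have := intervalIntegral.norm_integral_le_of_norm_le_const (a := -Real.pi) (b := Real.pi)
      (f := fun y : ℝ => G 0 w d (((-T : ℝ) : ℂ) + y * I)) (C := M) (fun y _ => bound1 y)
    have h4 : |Real.pi - -Real.pi| = 2 * Real.pi := by
      rw [abs_of_pos (by linarith [Real.pi_pos])]; ring
    rwa [h4] at this
  have i2 : ‖∫ y in (-Real.pi)..Real.pi, G 0 w d ((T : ℂ) + y * I)‖ ≤ M * (2 * Real.pi) := by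
    have := intervalIntegral.norm_integral_le_of_norm_le_const (a := -Real.pi) (b := Real.pi)
      (f := fun y : ℝ => G 0 w d ((T : ℂ) + y * I)) (C := M) (fun y _ => bound2 y)
    have h4 : |Real.pi - -Real.pi| = 2 * Real.pi := by
      rw [abs_of_pos (by linarith [Real.pi_pos])]; ring
    rwa [h4] at this
  unfold rectInt
  simp only [e1]
  rw [sub_self, zero_add]
  calc _ ≤ ‖I * ∫ y in (-Real.pi)..Real.pi, G 0 w d ((T : ℂ) + y * I)‖ +
      ‖I * ∫ y in (-Real.pi)..Real.pi, G 0 w d (((-T : ℝ) : ℂ) + y * I)‖ := norm_sub_le _ _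
    _ ≤ M * (2 * Real.pi) + M * (2 * Real.pi) := by
        rw [norm_mul, norm_mul, norm_I, one_mul, one_mul]
        exact add_le_add i2 i1
    _ = _ := by ring

theorem coeff_reg_zero (hw : ∀ j, 0 < w j) (hd : ∀ i, 0 < d i)
    (hcount : ∀ m, 2 ≤ m → (Finset.univ.filter (fun j => m ∣ w j)).card ≤
      (Finset.univ.filter (fun i => m ∣ d i)).card)
    (hsq : ∑ i, d i ^ 2 = ∑ j, w j ^ 2) (hlt : ∑ i, d i < ∑ j, w j)
    (k : ℕ) (hk : Fintype.card α = Fintype.card β + (k + 1)) :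
    ((Function.swap dslope 0)^[k] (reg 0 w d k)) 0 = 0 := by
  have hpi := Real.pi_pos
  set c : ℂ := ((Function.swap dslope 0)^[k] (reg 0 w d k)) 0 with hc
  set s : ℝ := ((∑ j, (w j : ℝ)) - ∑ i, (d i : ℝ)) / 2 with hs
  have hspos : 0 < s := by
    have : (∑ i, (d i : ℝ)) < ∑ j, (w j : ℝ) := by exact_mod_cast hlt
    rw [hs]; linarith
  set K : ℝ := ∫ x in (-1 : ℝ)..1, Real.pi / (x ^ 2 + Real.pi ^ 2) with hK
  have hKpos : 0 < K := pos_integral (c := Real.pi) (by norm_num) hpi hpi.ne' fun x => rfl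
  have hcont : Continuous fun x : ℝ => Real.pi / (x ^ 2 + Real.pi ^ 2) := by
    refine Continuous.div (by fun_prop) (by fun_prop) fun x => ?_
    positivity
  have key : ∀ T : ℝ, 1 ≤ T → ‖c‖ * K ≤ 2 * (Real.exp (-(s * T)) *
      (2 ^ Fintype.card β * 2 ^ Fintype.card α) * (2 * Real.pi)) := by
    intro T hT
    have h1 := rectInt_G (q := 0) (w := w) (d := d) (by simp) hw hd hcount k hk
      (a₁ := -T) (a₂ := T) (b₁ := -Real.pi) (b₂ := Real.pi) (by linarith) (by linarith)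
      (by linarith) hpi (fun z hz hl => lat_rect_zero hl hz)
    have h2 := norm_rectInt_le hsq hw hT (w := w) (d := d)
    rw [h1, norm_mul] at h2
    have h3 := rectInt_inv_im (a₁ := -T) (a₂ := T) (b₁ := -Real.pi) (b₂ := Real.pi) (by linarith)
      (by linarith) (by linarith) hpi
    have h4 : K ≤ ∫ x in (-T)..T, Real.pi / (x ^ 2 + Real.pi ^ 2) := by
      rw [hK]
      refine intervalIntegral.integral_mono_interval (by linarith) (by norm_num) hT ?_
        (hcont.intervalIntegrable _ _)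
      exact Filter.Eventually.of_forall fun x => by
        show (0 : ℝ) ≤ Real.pi / (x ^ 2 + Real.pi ^ 2)
        positivity
    have h5 := (le_abs_self (rectInt (fun z => (z ^ 1)⁻¹) (-T) T (-Real.pi) Real.pi).im).trans
      (abs_im_le_norm _)
    refine le_trans ?_ h2
    exact mul_le_mul_of_nonneg_left (by linarith) (norm_nonneg _)
  have hlim : Tendsto (fun T : ℝ => 2 * (Real.exp (-(s * T)) *
      (2 ^ Fintype.card β * 2 ^ Fintype.card α) * (2 * Real.pi))) atTop (𝓝 0) := by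
    have h1 : Tendsto (fun T : ℝ => Real.exp (-(s * T))) atTop (𝓝 0) := by
      refine Real.tendsto_exp_atBot.comp ?_
      refine tendsto_neg_atTop_atBot.comp ?_
      exact tendsto_id.const_mul_atTop hspos
    have h2 := ((h1.mul_const ((2 : ℝ) ^ Fintype.card β * 2 ^ Fintype.card α)).mul_const
      (2 * Real.pi)).const_mul 2
    simpa using h2
  have h0 : ‖c‖ * K ≤ 0 := by
    refine ge_of_tendsto hlim ?_
    filter_upwards [eventually_ge_atTop 1] with T hT using key T hT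
  have h1 : ‖c‖ ≤ 0 := by
    by_contra hcon
    push Not at hcon
    have := mul_pos hcon hKpos
    linarith
  exact norm_le_zero_iff.mp h1

end MP_a24efc.Zero
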